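import Pool.Agent.K4H96.VT.Walk

set_option autoImplicit false
set_option linter.unusedSectionVars false

/-! # Atoms: minimal sets with few boundary edges are blocks of imprimitivity -/

namespace Pool.Agent.K4H96.VT

open Finset

variable {V : Type} [Fintype V] [DecidableEq V]

/-- proper nonempty sets whose boundary avoids `R` -/
structure Adm (R : V → V → Prop) (X : Finset V) : Prop where
  ne : X.Nonempty
  nu : X ≠ univ
  av : ∀ u ∈ X, ∀ v, v ∉ X → ¬ R u v

/-- invariant under automorphisms -/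
def Inv (G : SimpleGraph V) (R : V → V → Prop) : Prop :=
  ∀ (g : G ≃g G) (u v : V), R u v → R (g u) (g v)

section

variable (G : SimpleGraph V) [DecidableRel G.Adj]

lemma dg_sum (X : Finset V) :
    dg G X = ∑ p : V × V, if (p.1 ∈ X ∧ p.2 ∉ X ∧ G.Adj p.1 p.2) then 1 else 0 := by
  rw [dg_eq, card_filter]

lemma submod (X Y : Finset V) : dg G (X ∩ Y) + dg G (X ∪ Y) ≤ dg G X + dg G Y := by
  simp only [dg_sum, ← Finset.sum_add_distrib]
  refine Finset.sum_le_sum fun p _ => ?_
  simp only [mem_inter, mem_union]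
  by_cases h1 : p.1 ∈ X <;> by_cases h2 : p.1 ∈ Y <;> by_cases h3 : p.2 ∈ X <;>
    by_cases h4 : p.2 ∈ Y <;> by_cases h5 : G.Adj p.1 p.2 <;> simp [h1, h2, h3, h4, h5]

lemma dg_compl (X : Finset V) : dg G Xᶜ = dg G X := by
  rw [dg_sum, dg_sum]
  refine Fintype.sum_equiv (Equiv.prodComm V V) _ _ fun p => ?_
  simp only [mem_compl, Equiv.prodComm_apply, Prod.fst_swap, Prod.snd_swap, not_not]
  have := G.adj_comm p.1 p.2
  split_ifs <;> tauto

lemma mem_im (g : G ≃g G) (X : Finset V) (v : V) : g v ∈ X.image g ↔ v ∈ X := by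
  rw [mem_image]
  constructor
  · rintro ⟨u, hu, h⟩
    rw [← g.injective h]; exact hu
  · exact fun h => ⟨v, h, rfl⟩

lemma dg_image (g : G ≃g G) (X : Finset V) : dg G (X.image g) = dg G X := by
  rw [dg_sum, dg_sum]
  symm
  refine Fintype.sum_equiv (g.toEquiv.prodCongr g.toEquiv) _ _ fun p => ?_
  have h1 : (g.toEquiv.prodCongr g.toEquiv) p = (g p.1, g p.2) := rfl
  rw [h1]
  simp only [mem_im, g.map_adj_iff]

lemma card_im (g : G ≃g G) (X : Finset V) : (X.image g).card = X.card :=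
  card_image_of_injective _ g.injective

lemma Adm.compl {R : V → V → Prop} (hs : ∀ u v, R u v → R v u) {X : Finset V} (h : Adm R X) :
    Adm R Xᶜ := by
  refine ⟨?_, ?_, ?_⟩
  · rw [nonempty_iff_ne_empty]
    intro h1
    exact h.nu (by rwa [compl_eq_empty_iff] at h1)
  · intro h1
    rw [compl_eq_univ_iff] at h1
    exact (nonempty_iff_ne_empty.1 h.ne) h1
  · intro u hu v hv hR
    rw [mem_compl] at hu
    rw [mem_compl, not_not] at hv
    exact h.av v hv u hu (hs _ _ hR)

lemma Adm.image {R : V → V → Prop} (hi : Inv G R) {X : Finset V} (h : Adm R X) (g : G ≃g G) :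
    Adm R (X.image g) := by
  refine ⟨h.ne.image _, ?_, ?_⟩
  · intro h1
    refine h.nu (eq_univ_iff_forall.2 fun v => ?_)
    rw [← mem_im G g, h1]
    exact mem_univ _
  · intro u hu v hv hR
    obtain ⟨u', hu', rfl⟩ := mem_image.1 hu
    have h2 := hi g.symm _ _ hR
    rw [g.symm_apply_apply] at h2
    refine h.av u' hu' (g.symm v) ?_ h2
    intro h3
    rw [← mem_im G g, g.apply_symm_apply] at h3
    exact hv h3

/-- minimal sets are blocks -/
theorem block {R : V → V → Prop} (hs : ∀ u v, R u v → R v u) (hi : Inv G R) {k : ℕ}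
    {X : Finset V} (hk : ∀ Y, Adm R Y → k ≤ dg G Y) (hX : Adm R X) (hd : dg G X = k)
    (hmin : ∀ Y, Adm R Y → dg G Y = k → X.card ≤ Y.card) (g : G ≃g G) {v : V} (hv : v ∈ X)
    (hgv : v ∈ X.image g) : X.image g = X := by
  have hY : Adm R (X.image g) := hX.image G hi g
  have hdY : dg G (X.image g) = k := by rw [dg_image, hd]
  have hcY := card_im G g X
  have h2 : 2 * X.card ≤ Fintype.card V := by
    have h3 := hmin Xᶜ (Adm.compl hs hX) (by rw [dg_compl, hd])
    rw [card_compl] at h3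
    have := X.card_le_univ
    omega
  have hI : (X ∩ X.image g).Nonempty := ⟨v, mem_inter.2 ⟨hv, hgv⟩⟩
  have hU : X ∪ X.image g ≠ univ := by
    intro h3
    have h4 := card_union_add_card_inter X (X.image g)
    rw [h3, card_univ] at h4
    have := hI.card_pos
    omega
  have hAI : Adm R (X ∩ X.image g) := by
    refine ⟨hI, ?_, ?_⟩
    · intro h3
      apply hU
      rw [eq_univ_iff_forall] at h3 ⊢
      intro x
      exact mem_union_left _ (mem_inter.1 (h3 x)).1
    · intro a ha b hb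
      rw [mem_inter] at ha
      by_cases h3 : b ∈ X
      · exact hY.av a ha.2 b (fun h4 => hb (mem_inter.2 ⟨h3, h4⟩))
      · exact hX.av a ha.1 b h3
  have hAU : Adm R (X ∪ X.image g) := by
    refine ⟨hX.ne.mono subset_union_left, hU, ?_⟩
    intro a ha b hb
    rw [mem_union, not_or] at hb
    rcases mem_union.1 ha with h3 | h3
    · exact hX.av a h3 b hb.1
    · exact hY.av a h3 b hb.2
  have h5 := submod G X (X.image g)
  have h6 := hk _ hAI
  have h7 := hk _ hAU
  have h8 : dg G (X ∩ X.image g) = k := by omega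
  have h9 := hmin _ hAI h8
  have h10 : X ∩ X.image g = X := eq_of_subset_of_card_le inter_subset_left h9
  have h11 : X ⊆ X.image g := by
    intro a ha
    rw [← h10] at ha
    exact (mem_inter.1 ha).2
  exact (eq_of_subset_of_card_le h11 (by omega)).symm

/-- the number of neighbours outside `X` -/
def out (X : Finset V) (x : V) : ℕ := (univ.filter (fun v => v ∉ X ∧ G.Adj x v)).card

lemma dg_out (X : Finset V) : dg G X = ∑ x ∈ X, out G X x := by
  rw [dg_sum, Fintype.sum_prod_type]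
  have h1 : ∀ x : V, ∑ y : V, (if (x ∈ X ∧ y ∉ X ∧ G.Adj x y) then 1 else 0) =
      if x ∈ X then out G X x else 0 := by
    intro x
    by_cases hx : x ∈ X
    · simp only [hx, true_and, if_true, out, card_filter]
    · simp [hx]
  rw [Finset.sum_congr rfl fun x _ => h1 x]
  rw [← Finset.sum_filter]
  congr 1
  ext x
  simp

lemma out_image (g : G ≃g G) (X : Finset V) (x : V) :
    out G (X.image g) (g x) = out G X x := by
  unfold out
  symm
  refine Finset.card_bij (fun v _ => g v) ?_ ?_ ?_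
  · intro v hv
    rw [mem_filter] at hv ⊢
    refine ⟨mem_univ _, ?_, ?_⟩
    · rw [mem_im]; exact hv.2.1
    · rw [g.map_adj_iff]; exact hv.2.2
  · intro a _ b _ h
    exact g.injective h
  · intro b hb
    rw [mem_filter] at hb
    refine ⟨g.symm b, ?_, g.apply_symm_apply b⟩
    rw [mem_filter]
    refine ⟨mem_univ _, ?_, ?_⟩
    · intro h
      rw [← mem_im G g, g.apply_symm_apply] at h
      exact hb.2.1 h
    · rw [← g.map_adj_iff, g.apply_symm_apply]
      exact hb.2.2

/-- an atom exists -/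
lemma exists_atom {R : V → V → Prop} (h : ∃ X, Adm R X) :
    ∃ X k, Adm R X ∧ dg G X = k ∧ (∀ Y, Adm R Y → k ≤ dg G Y) ∧
      ∀ Y, Adm R Y → dg G Y = k → X.card ≤ Y.card := by
  classical
  obtain ⟨X0, hX0⟩ := h
  obtain ⟨X1, hX1, h1⟩ := (univ.filter (fun X : Finset V => Adm R X)).exists_min_image (dg G)
    ⟨X0, mem_filter.2 ⟨mem_univ _, hX0⟩⟩
  obtain ⟨X2, hX2, h2⟩ := (univ.filter (fun X : Finset V => Adm R X ∧ dg G X = dg G X1)).exists_min_image
    card ⟨X1, mem_filter.2 ⟨mem_univ _, (mem_filter.1 hX1).2, rfl⟩⟩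
  have h3 := (mem_filter.1 hX2).2
  exact ⟨X2, dg G X1, h3.1, h3.2, fun Y hY => h1 Y (mem_filter.2 ⟨mem_univ _, hY⟩),
    fun Y hY hd => h2 Y (mem_filter.2 ⟨mem_univ _, hY, hd⟩)⟩

/-- vertex-transitive: the number of outer neighbours is constant on an atom -/
lemma out_const {R : V → V → Prop} (hs : ∀ u v, R u v → R v u) (hi : Inv G R) {k : ℕ}
    {X : Finset V} (hk : ∀ Y, Adm R Y → k ≤ dg G Y) (hX : Adm R X) (hd : dg G X = k)
    (hmin : ∀ Y, Adm R Y → dg G Y = k → X.card ≤ Y.card)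
    (hvt : ∀ u v, ∃ g : G ≃g G, g u = v) {x y : V} (hx : x ∈ X) (hy : y ∈ X) :
    out G X x = out G X y := by
  obtain ⟨g, hg⟩ := hvt x y
  have h1 : X.image g = X := block G hs hi hk hX hd hmin g hy (by
    rw [← hg, mem_im]; exact hx)
  have h2 := out_image G g X x
  rw [h1, hg] at h2
  exact h2.symm

lemma deg_out (X : Finset V) (x : V) :
    G.degree x = (univ.filter (fun v => v ∈ X ∧ G.Adj x v)).card + out G X x := by
  unfold out
  rw [← SimpleGraph.card_neighborFinset_eq_degree, ← card_union_of_disjoint]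
  · congr 1
    ext v
    simp only [SimpleGraph.mem_neighborFinset, mem_union, mem_filter, mem_univ, true_and]
    tauto
  · rw [disjoint_filter]
    tauto

lemma inn_le {X : Finset V} {x : V} (hx : x ∈ X) :
    (univ.filter (fun v => v ∈ X ∧ G.Adj x v)).card + 1 ≤ X.card := by
  rw [← card_erase_add_one hx]
  refine Nat.add_le_add_right (card_le_card ?_) 1
  intro v hv
  rw [mem_filter] at hv
  exact mem_erase.2 ⟨hv.2.2.ne', hv.2.1⟩

lemma exists_bd (hc : G.Connected) {X : Finset V} (h1 : X.Nonempty) (h2 : X ≠ univ) :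
    ∃ u ∈ X, ∃ v, v ∉ X ∧ G.Adj u v := by
  obtain ⟨a, ha⟩ := h1
  obtain ⟨b, hb⟩ : ∃ b, b ∉ X := by
    by_contra h
    push Not at h
    exact h2 (eq_univ_iff_forall.2 h)
  obtain ⟨p⟩ := hc.preconnected a b
  obtain ⟨d, -, h3, h4⟩ := p.exists_boundary_dart (X : Set V) (by simpa using ha)
    (by simpa using hb)
  exact ⟨d.fst, by simpa using h3, d.snd, by simpa using h4, d.adj⟩

lemma dg_pos (hc : G.Connected) {X : Finset V} (h1 : X.Nonempty) (h2 : X ≠ univ) :
    1 ≤ dg G X := by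
  obtain ⟨u, hu, v, hv, huv⟩ := exists_bd G hc h1 h2
  rw [dg_eq, Nat.one_le_iff_ne_zero, ← Nat.pos_iff_ne_zero, card_pos]
  exact ⟨(u, v), mem_filter.2 ⟨mem_univ _, hu, hv, huv⟩⟩

/-- the edge-connectivity of connected vertex-transitive graphs -/
theorem mader (hc : G.Connected) (hvt : ∀ u v, ∃ g : G ≃g G, g u = v) {d : ℕ}
    (hd : ∀ v, G.degree v = d) {X : Finset V} (h1 : X.Nonempty) (h2 : X ≠ univ) :
    d ≤ dg G X := by
  by_contra hcon
  obtain ⟨Y, k, hY, hk, hkm, hmin⟩ := exists_atom G (R := fun _ _ => False)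
    ⟨X, h1, h2, fun _ _ _ _ h => h⟩
  have h3 : k ≤ dg G X := hkm X ⟨h1, h2, fun _ _ _ _ h => h⟩
  have h4 : 1 ≤ k := by rw [← hk]; exact dg_pos G hc hY.ne hY.nu
  obtain ⟨x, hx⟩ := hY.ne
  have h5 : dg G Y = Y.card * out G Y x := by
    rw [dg_out, Finset.sum_const_nat (m := out G Y x)]
    intro y hy
    exact out_const G (R := fun _ _ => False) (fun _ _ h => h) (fun _ _ _ h => h) hkm hY hk hmin
      hvt hy hx
  have h6 := deg_out G Y x
  have h7 := inn_le G hx
  rw [hd x] at h6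
  have h8 : 1 ≤ out G Y x := by
    by_contra h9
    have h10 : out G Y x = 0 := by omega
    rw [h10] at h5
    omega
  have h9 : 1 ≤ Y.card := by omega
  have h10 : dg G Y < d := by omega
  rw [h5] at h10
  obtain ⟨a, ha⟩ := Nat.exists_eq_add_of_le h8
  obtain ⟨b, hb⟩ := Nat.exists_eq_add_of_le h9
  rw [ha] at h10 h6
  rw [hb] at h10 h7
  nlinarith [Nat.zero_le (a * b)]

/-- the edge-connectivity of connected edge-transitive graphs -/
theorem mader_edge (hc : G.Connected)
    (het : ∀ u v x y, G.Adj u v → G.Adj x y → ∃ g : G ≃g G, s(g u, g v) = s(x, y)) {d : ℕ}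
    (hd : ∀ v, d ≤ G.degree v) {X : Finset V} (h1 : X.Nonempty) (h2 : X ≠ univ) :
    d ≤ dg G X := by
  by_contra hcon
  obtain ⟨Y, k, hY, hk, hkm, hmin⟩ := exists_atom G (R := fun _ _ => False)
    ⟨X, h1, h2, fun _ _ _ _ h => h⟩
  have h3 : k ≤ dg G X := hkm X ⟨h1, h2, fun _ _ _ _ h => h⟩
  obtain ⟨u, hu, v, hv, huv⟩ := exists_bd G hc hY.ne hY.nu
  have key : ∀ x ∈ Y, ∀ y ∈ Y, ¬ G.Adj x y := by
    intro x hx y hy hxy
    obtain ⟨g, hg⟩ := het x y u v hxy huv
    have hux : u ∈ Y.image g ∧ v ∈ Y.image g := by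
      rw [Sym2.eq_iff] at hg
      rcases hg with ⟨a, b⟩ | ⟨a, b⟩
      · rw [← a, ← b, mem_im, mem_im]; exact ⟨hx, hy⟩
      · rw [← a, ← b, mem_im, mem_im]; exact ⟨hy, hx⟩
    have h4 := block G (R := fun _ _ => False) (fun _ _ h => h) (fun _ _ _ h => h) hkm hY hk hmin
      g hu hux.1
    rw [h4] at hux
    exact hv hux.2
  obtain ⟨x, hx⟩ := hY.ne
  have h5 : out G Y x ≤ dg G Y := by
    rw [dg_out]
    exact Finset.single_le_sum (f := fun x => out G Y x) (fun _ _ => Nat.zero_le _) hx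
  have h6 := deg_out G Y x
  have h7 : (univ.filter (fun v => v ∈ Y ∧ G.Adj x v)).card = 0 := by
    rw [card_eq_zero, filter_eq_empty_iff]
    intro y _ h
    exact key x hx y h.1 h.2
  have := hd x
  omega

end

end Pool.Agent.K4H96.VT
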