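import Mathlib
import Pool.Agent.Results.MP_c8786f_co.ElevenNewEdges

set_option autoImplicit false

/-! # Circulations of simple graphs as antisymmetric functions -/

namespace Pool.Agent.K4H96.VT

open Finset

variable {V : Type} [Fintype V] [DecidableEq V]

/-- a circulation: an antisymmetric function, zero outside the edges, with sum zero at all
vertices -/
structure Circ (G : SimpleGraph V) (w : V → V → ℤ) : Prop where
  anti : ∀ u v, w u v = - w v u
  supp : ∀ u v, ¬ G.Adj u v → w u v = 0
  bal : ∀ u, ∑ v, w u v = 0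

/-- the values are `0`, `1`, `-1` -/
def Uni (w : V → V → ℤ) : Prop := ∀ u v, w u v = 0 ∨ w u v = 1 ∨ w u v = -1

/-- the number of edges with exactly one end in `X` -/
noncomputable def dg (G : SimpleGraph V) (X : Finset V) : ℕ := by
  classical
  exact ((univ : Finset (V × V)).filter
    (fun p => p.1 ∈ X ∧ p.2 ∉ X ∧ G.Adj p.1 p.2)).card

lemma dg_eq (G : SimpleGraph V) [DecidableRel G.Adj] (X : Finset V) :
    dg G X = ((univ : Finset (V × V)).filter
      (fun p => p.1 ∈ X ∧ p.2 ∉ X ∧ G.Adj p.1 p.2)).card := by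
  unfold dg
  congr

section Edges

variable (G : SimpleGraph V) [DecidableRel G.Adj]

noncomputable def sr (e : G.edgeSet) : V := (Quot.out e.1).1
noncomputable def ds (e : G.edgeSet) : V := (Quot.out e.1).2

omit [Fintype V] [DecidableEq V] [DecidableRel G.Adj] in
lemma mk_sd (e : G.edgeSet) : s(sr G e, ds G e) = e.1 := Quot.out_eq e.1

omit [Fintype V] [DecidableEq V] [DecidableRel G.Adj] in
lemma adj_sd (e : G.edgeSet) : G.Adj (sr G e) (ds G e) := by
  have h := e.2
  rw [← mk_sd G e] at h
  exact h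

lemma sum_edges {h : V → V → ℤ} (ha : ∀ u v, h u v = - h v u) (hs : ∀ u v, ¬ G.Adj u v → h u v = 0)
    (x : V) :
    ∑ e : G.edgeSet, h (sr G e) (ds G e) *
      ((if sr G e = x then 1 else 0) - (if ds G e = x then 1 else 0)) = ∑ v, h x v := by
  have h1 : ∀ e : G.edgeSet, h (sr G e) (ds G e) *
      ((if sr G e = x then 1 else 0) - (if ds G e = x then 1 else 0)) =
      ∑ v, if e.1 = s(x, v) then h x v else 0 := by
    intro e
    have hne := (adj_sd G e).ne
    rw [← mk_sd G e]
    by_cases h2 : sr G e = x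
    · have h3 : ds G e ≠ x := fun h3 => hne (h2.trans h3.symm)
      rw [if_pos h2, if_neg h3, sub_zero, mul_one, Finset.sum_eq_single (ds G e)]
      · rw [h2, if_pos rfl]
      · intro b _ hb
        rw [if_neg]
        intro h4
        rw [Sym2.eq_iff] at h4
        rcases h4 with ⟨-, h4⟩ | ⟨-, h4⟩
        · exact hb h4.symm
        · exact h3 h4
      · intro h4; exact absurd (mem_univ _) h4
    · by_cases h3 : ds G e = x
      · rw [if_neg h2, if_pos h3, Finset.sum_eq_single (sr G e)]
        · rw [h3, if_pos (Sym2.eq_swap), ha x (sr G e)]; ring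
        · intro b _ hb
          rw [if_neg]
          intro h4
          rw [Sym2.eq_iff] at h4
          rcases h4 with ⟨h4, -⟩ | ⟨h4, -⟩
          · exact h2 h4
          · exact hb h4.symm
        · intro h4; exact absurd (mem_univ _) h4
      · rw [if_neg h2, if_neg h3, sub_zero, mul_zero]
        symm
        refine Finset.sum_eq_zero fun b _ => ?_
        rw [if_neg]
        intro h4
        rw [Sym2.eq_iff] at h4
        rcases h4 with ⟨h4, -⟩ | ⟨-, h4⟩
        · exact h2 h4
        · exact h3 h4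
  rw [Finset.sum_congr rfl (fun e _ => h1 e), Finset.sum_comm]
  refine Finset.sum_congr rfl fun v _ => ?_
  by_cases hv : G.Adj x v
  · rw [Finset.sum_eq_single ⟨s(x, v), hv⟩]
    · rw [if_pos rfl]
    · intro b _ hb
      rw [if_neg]
      intro h4
      exact hb (Subtype.ext h4)
    · intro h4; exact absurd (mem_univ _) h4
  · rw [hs x v hv]
    refine Finset.sum_eq_zero fun b _ => ?_
    split_ifs <;> rfl

/-- the boundary of a set of vertices in the library's sense has `dg G X` elements -/
lemma card_boundary (X : Finset V) :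
    (Pool.Agent.Results.MP_c8786f_co.ElevenNewEdges.boundary (sr G) (ds G) X).card = dg G X := by
  rw [dg_eq]
  unfold Pool.Agent.Results.MP_c8786f_co.ElevenNewEdges.boundary
  symm
  refine Finset.card_bij
    (fun p hp => (⟨s(p.1, p.2), (mem_filter.1 hp).2.2.2⟩ : G.edgeSet)) ?_ ?_ ?_
  · rintro ⟨u, v⟩ hp
    have h := (mem_filter.1 hp).2
    simp only at h
    refine mem_filter.2 ⟨mem_univ _, ?_⟩
    have h2 := mk_sd G ⟨s(u, v), h.2.2⟩
    simp only [Sym2.eq_iff] at h2
    rcases h2 with ⟨a, b⟩ | ⟨a, b⟩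
    · simp only [a, b]; tauto
    · simp only [a, b]; tauto
  · rintro ⟨u, v⟩ hp ⟨u', v'⟩ hp' heq
    have h := (mem_filter.1 hp).2
    have h' := (mem_filter.1 hp').2
    simp only at h h'
    have h3 := congrArg Subtype.val heq
    simp only [Sym2.eq_iff] at h3
    rcases h3 with ⟨a, b⟩ | ⟨a, b⟩
    · rw [a, b]
    · exact absurd (a ▸ h.1) h'.2.1
  · intro e he
    have h := (mem_filter.1 he).2
    by_cases h1 : sr G e ∈ X
    · have h2 : ds G e ∉ X := by tauto
      exact ⟨(sr G e, ds G e), mem_filter.2 ⟨mem_univ _, h1, h2, adj_sd G e⟩,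
        Subtype.ext (mk_sd G e)⟩
    · have h2 : ds G e ∈ X := by tauto
      exact ⟨(ds G e, sr G e), mem_filter.2 ⟨mem_univ _, h2, h1, (adj_sd G e).symm⟩,
        Subtype.ext ((Sym2.eq_swap).trans (mk_sd G e))⟩

/-- counting the edges of the support of a unit circulation with a symmetric property -/
lemma card_supp {w : V → V → ℤ} (hw : Circ G w) (hu : Uni w) (P : V → V → Prop)
    (hP : ∀ u v, P u v → P v u) [DecidablePred fun e : G.edgeSet => w (sr G e) (ds G e) ≠ 0 ∧ P (sr G e) (ds G e)]
    [DecidablePred fun p : V × V => w p.1 p.2 = 1 ∧ P p.1 p.2] :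
    ((univ : Finset G.edgeSet).filter
      (fun e => w (sr G e) (ds G e) ≠ 0 ∧ P (sr G e) (ds G e))).card =
    ((univ : Finset (V × V)).filter (fun p => w p.1 p.2 = 1 ∧ P p.1 p.2)).card := by
  symm
  have hadj : ∀ p : V × V, w p.1 p.2 = 1 → G.Adj p.1 p.2 := by
    intro p hp
    by_contra hc
    rw [hw.supp _ _ hc] at hp
    exact absurd hp (by norm_num)
  refine Finset.card_bij
    (fun p hp => (⟨s(p.1, p.2), hadj p (mem_filter.1 hp).2.1⟩ : G.edgeSet)) ?_ ?_ ?_
  · rintro ⟨u, v⟩ hp
    have h := (mem_filter.1 hp).2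
    simp only at h
    refine mem_filter.2 ⟨mem_univ _, ?_⟩
    have h2 := mk_sd G ⟨s(u, v), hadj _ h.1⟩
    simp only [Sym2.eq_iff] at h2
    rcases h2 with ⟨a, b⟩ | ⟨a, b⟩
    · simp only [a, b]
      exact ⟨by rw [h.1]; norm_num, h.2⟩
    · simp only [a, b]
      refine ⟨by rw [hw.anti v u, h.1]; norm_num, hP _ _ h.2⟩
  · rintro ⟨u, v⟩ hp ⟨u', v'⟩ hp' heq
    have h := (mem_filter.1 hp).2
    have h' := (mem_filter.1 hp').2
    simp only at h h'
    have h3 := congrArg Subtype.val heq
    simp only [Sym2.eq_iff] at h3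
    rcases h3 with ⟨a, b⟩ | ⟨a, b⟩
    · rw [a, b]
    · exfalso
      have h4 := h.1
      rw [a, b, hw.anti v' u', h'.1] at h4
      norm_num at h4
  · intro e he
    have h := (mem_filter.1 he).2
    rcases hu (sr G e) (ds G e) with h1 | h1 | h1
    · exact absurd h1 h.1
    · exact ⟨(sr G e, ds G e), mem_filter.2 ⟨mem_univ _, h1, h.2⟩, Subtype.ext (mk_sd G e)⟩
    · refine ⟨(ds G e, sr G e), mem_filter.2 ⟨mem_univ _, ?_, hP _ _ h.2⟩,
        Subtype.ext ((Sym2.eq_swap).trans (mk_sd G e))⟩
      simp only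
      rw [hw.anti, h1]; norm_num

end Edges

end Pool.Agent.K4H96.VT
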