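import Pool.Agent.K4H96.VT.Even

set_option autoImplicit false
set_option linter.unusedSectionVars false

/-! # Edge-transitive graphs which are not vertex-transitive -/

namespace Pool.Agent.K4H96.VT

open Finset Pool.Agent.Results.MP_c8786f_co.ElevenNewEdges

variable {V : Type} [Fintype V] [DecidableEq V]

/-- edge-transitive graphs without isolated vertices which are not vertex-transitive are
bipartite -/
theorem et_bip (G : SimpleGraph V)
    (het : ∀ u v x y, G.Adj u v → G.Adj x y → ∃ g : G ≃g G, s(g u, g v) = s(x, y))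
    (hiso : ∀ v, ∃ u, G.Adj v u) (hnv : ¬ ∀ u v, ∃ g : G ≃g G, g u = v) : G.Colorable 2 := by
  classical
  push Not at hnv
  obtain ⟨p, q, hpq⟩ := hnv
  obtain ⟨r, hr⟩ := hiso p
  let A : V → Prop := fun x => ∃ g : G ≃g G, g p = x
  have hA : ∀ x y (g : G ≃g G), g x = y → (A x ↔ A y) := by
    intro x y g hg
    constructor
    · rintro ⟨h, hh⟩
      exact ⟨h.trans g, by rw [← hg, ← hh]; rfl⟩
    · rintro ⟨h, hh⟩
      refine ⟨h.trans g.symm, ?_⟩
      have : (h.trans g.symm) p = g.symm (h p) := rfl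
      rw [this, hh, ← hg, g.symm_apply_apply]
  have hAp : A p := ⟨SimpleGraph.Iso.refl, rfl⟩
  have hAr : ¬ A r := by
    intro hAr
    obtain ⟨t, ht⟩ := hiso q
    obtain ⟨g, hg⟩ := het p r q t hr ht
    rw [Sym2.eq_iff] at hg
    rcases hg with ⟨h1, h2⟩ | ⟨h1, h2⟩
    · exact hpq g h1
    · obtain ⟨h, hh⟩ := (hA r q g h2).1 hAr
      exact hpq h hh
  refine ⟨SimpleGraph.Coloring.mk (fun x => if A x then 0 else 1) ?_⟩
  intro x y hxy
  obtain ⟨g, hg⟩ := het p r x y hr hxy
  rw [Sym2.eq_iff] at hg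
  rcases hg with ⟨h1, h2⟩ | ⟨h1, h2⟩
  · have h3 := (hA p x g h1).1 hAp
    have h4 : ¬ A y := fun h => hAr ((hA r y g h2).2 h)
    simp [h3, h4]
  · have h3 := (hA p y g h1).1 hAp
    have h4 : ¬ A x := fun h => hAr ((hA r x g h2).2 h)
    simp [h3, h4]

section

variable (G : SimpleGraph V) [DecidableRel G.Adj]

/-- in edge-transitive graphs all 3-edge-cuts are trivial -/
theorem triv (hc : G.Connected)
    (het : ∀ u v x y, G.Adj u v → G.Adj x y → ∃ g : G ≃g G, s(g u, g v) = s(x, y))
    (hd : ∀ v, 3 ≤ G.degree v) (X0 : Finset V) (hX0 : dg G X0 = 3) :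
    X0.card ≤ 1 ∨ X0ᶜ.card ≤ 1 := by
  classical
  by_contra hcon
  push Not at hcon
  obtain ⟨X, hX, hmin⟩ := (univ.filter (fun X : Finset V => dg G X = 3 ∧ 2 ≤ X.card ∧
    2 ≤ Xᶜ.card)).exists_min_image card ⟨X0, mem_filter.2 ⟨mem_univ _, hX0, by omega, by omega⟩⟩
  obtain ⟨-, h3, h2, h2'⟩ := mem_filter.1 hX
  have hmin' : ∀ Y : Finset V, dg G Y = 3 → 2 ≤ Y.card → 2 ≤ Yᶜ.card → X.card ≤ Y.card :=
    fun Y a b c => hmin Y (mem_filter.2 ⟨mem_univ _, a, b, c⟩)
  have hX1 : X.Nonempty := card_pos.1 (by omega)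
  have hX2 : X ≠ univ := by
    rintro rfl
    rw [compl_univ, card_empty] at h2'
    omega
  have hhalf : X.card ≤ Xᶜ.card := hmin' Xᶜ (by rw [dg_compl]; exact h3) h2' (by
    rw [compl_compl]; exact h2)
  have hXc := card_add_card_compl X
  obtain ⟨u, hu, v, hv, huv⟩ := exists_bd G hc hX1 hX2
  -- an internal edge
  obtain ⟨x, hx, y, hy, hxy⟩ : ∃ x ∈ X, ∃ y ∈ X, G.Adj x y := by
    by_contra hno
    push Not at hno
    have h4 : ∀ x ∈ X, 3 ≤ out G X x := by
      intro x hx
      have h5 := deg_out G X x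
      have h6 : (univ.filter (fun v => v ∈ X ∧ G.Adj x v)).card = 0 := by
        rw [card_eq_zero, filter_eq_empty_iff]
        intro y _ h
        exact hno x hx y h.1 h.2
      have := hd x
      omega
    have h5 := Finset.card_nsmul_le_sum X (fun x => out G X x) 3 h4
    rw [← dg_out, h3, smul_eq_mul] at h5
    omega
  obtain ⟨g, hg⟩ := het x y u v hxy huv
  set Y := X.image g with hY
  have huvY : u ∈ Y ∧ v ∈ Y := by
    rw [Sym2.eq_iff] at hg
    rcases hg with ⟨a, b⟩ | ⟨a, b⟩
    · rw [← a, ← b, hY, mem_im, mem_im]; exact ⟨hx, hy⟩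
    · rw [← a, ← b, hY, mem_im, mem_im]; exact ⟨hy, hx⟩
  have hYc : Y.card = X.card := card_im G g X
  have hYd : dg G Y = 3 := by rw [hY, dg_image, h3]
  have hYd' : dg G Yᶜ = 3 := by rw [dg_compl, hYd]
  have hm : ∀ Z : Finset V, Z.Nonempty → Z ≠ univ → 3 ≤ dg G Z :=
    fun Z a b => mader_edge G hc het hd a b
  have hI : (X ∩ Y).Nonempty := ⟨u, mem_inter.2 ⟨hu, huvY.1⟩⟩
  have hIc := hI.card_pos
  have hui := card_union_add_card_inter X Y
  have hU : X ∪ Y ≠ univ := by
    intro h
    rw [h, card_univ] at hui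
    omega
  have hIn : X ∩ Y ≠ univ := by
    intro h
    refine hX2 (eq_univ_iff_forall.2 fun z => ?_)
    rw [eq_univ_iff_forall] at h
    exact (mem_inter.1 (h z)).1
  have hlt : (X ∩ Y).card < X.card := by
    refine card_lt_card ⟨inter_subset_left, fun h => ?_⟩
    have h5 : X ⊆ Y := fun z hz => (mem_inter.1 (h hz)).2
    have h6 := eq_of_subset_of_card_le h5 hYc.le
    exact hv (h6 ▸ huvY.2)
  have hs1 := submod G X Y
  have hI3 := hm _ hI hIn
  have hU3 := hm _ (hX1.mono (subset_union_left (s₂ := Y))) hU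
  have hI1 : (X ∩ Y).card = 1 := by
    by_contra hne
    have h5 := hmin' (X ∩ Y) (by omega) (by omega) (by
      refine h2'.trans (card_le_card ?_)
      intro z hz
      rw [mem_compl] at hz ⊢
      exact fun h => hz (mem_inter.1 h).1)
    omega
  have hs2 := submod G X Yᶜ
  have hD : (X \ Y).card + (X ∩ Y).card = X.card := card_sdiff_add_card_inter X Y
  have hD' : X ∩ Yᶜ = X \ Y := by ext z; simp
  have hDne : (X \ Y).Nonempty := card_pos.1 (by omega)
  have hDn : X \ Y ≠ univ := by
    intro h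
    refine hX2 (eq_univ_iff_forall.2 fun z => ?_)
    rw [eq_univ_iff_forall] at h
    exact (mem_sdiff.1 (h z)).1
  have hUn : X ∪ Yᶜ ≠ univ := by
    intro h
    rw [eq_univ_iff_forall] at h
    rcases mem_union.1 (h v) with h5 | h5
    · exact hv h5
    · exact (mem_compl.1 h5) huvY.2
  have hD3 := hm _ hDne hDn
  have hU3' := hm _ (hX1.mono (subset_union_left (s₂ := Yᶜ))) hUn
  rw [hD'] at hs2
  have hD1 : (X \ Y).card = 1 := by
    by_contra hne
    have h5 := hmin' (X \ Y) (by omega) (by omega) (by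
      refine h2'.trans (card_le_card ?_)
      intro z hz
      rw [mem_compl] at hz ⊢
      exact fun h => hz (mem_sdiff.1 h).1)
    omega
  have hX2c : X.card = 2 := by omega
  have h4 : ∀ x ∈ X, 2 ≤ out G X x := by
    intro x hx
    have h5 := deg_out G X x
    have h6 := inn_le G hx
    have := hd x
    omega
  have h5 := Finset.card_nsmul_le_sum X (fun x => out G X x) 2 h4
  rw [← dg_out, h3, smul_eq_mul] at h5
  omega

lemma mem_bd (e : G.edgeSet) (X : Finset V) :
    e ∈ boundary (sr G) (ds G) X ↔ ¬ (sr G e ∈ X ↔ ds G e ∈ X) := by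
  unfold boundary
  simp

/-- a 3-edge-cut is the boundary of a vertex of degree three -/
lemma bd_single (hc : G.Connected)
    (het : ∀ u v x y, G.Adj u v → G.Adj x y → ∃ g : G ≃g G, s(g u, g v) = s(x, y))
    (hd : ∀ v, 3 ≤ G.degree v) (X : Finset V) (hX : (boundary (sr G) (ds G) X).card = 3) :
    ∃ v, G.degree v = 3 ∧ boundary (sr G) (ds G) X = boundary (sr G) (ds G) {v} := by
  classical
  have hdeg : ∀ v, dg G {v} = G.degree v := by
    intro v
    rw [dg_out, sum_singleton, deg_out G {v} v]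
    have h6 : (univ.filter (fun y => y ∈ ({v} : Finset V) ∧ G.Adj v y)).card = 0 := by
      rw [card_eq_zero, filter_eq_empty_iff]
      intro y _ h
      rw [mem_singleton] at h
      rw [h.1] at h
      exact G.loopless.irrefl v h.2
    omega
  have h0 : X.Nonempty := by
    rw [nonempty_iff_ne_empty]
    rintro rfl
    simp [boundary] at hX
  have h0' : Xᶜ.Nonempty := by
    rw [nonempty_iff_ne_empty]
    intro h
    rw [compl_eq_empty_iff] at h
    rw [h] at hX
    simp [boundary] at hX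
  have hX' := hX
  rw [card_boundary] at hX
  rcases triv G hc het hd X hX with h | h
  · obtain ⟨v, rfl⟩ := card_eq_one.1 (le_antisymm h h0.card_pos)
    exact ⟨v, by rw [← hdeg]; exact hX, rfl⟩
  · obtain ⟨v, hv⟩ := card_eq_one.1 (le_antisymm h h0'.card_pos)
    refine ⟨v, by rw [← hdeg, ← hv, dg_compl]; exact hX, ?_⟩
    ext e
    rw [mem_bd, mem_bd, ← hv]
    simp only [mem_compl]
    tauto

/-- edge-transitive graphs with degrees `3` and at least four -/
theorem et_mixed (hc : G.Connected)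
    (het : ∀ u v x y, G.Adj u v → G.Adj x y → ∃ g : G ≃g G, s(g u, g v) = s(x, y))
    (hd : ∀ v, 3 ≤ G.degree v) (hmix : ∃ v, G.degree v ≠ 3) :
    ∃ f, Circ G f ∧ ∀ u v, G.Adj u v → 1 ≤ |f u v| ∧ |f u v| ≤ 4 := by
  classical
  -- no two vertices of degree three are adjacent
  have hnadj : ∀ u v, G.degree u = 3 → G.degree v = 3 → ¬ G.Adj u v := by
    intro u v hu hv huv
    obtain ⟨w, hw⟩ := hmix
    have h1 : 0 < G.degree w := by have := hd w; omega
    rw [← SimpleGraph.card_neighborFinset_eq_degree, card_pos] at h1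
    obtain ⟨z, hz⟩ := h1
    rw [SimpleGraph.mem_neighborFinset] at hz
    obtain ⟨g, hg⟩ := het u v w z huv hz
    rw [Sym2.eq_iff] at hg
    rcases hg with ⟨a, b⟩ | ⟨a, b⟩
    · rw [← a, g.degree_eq] at hw
      exact hw hu
    · rw [← b, g.degree_eq] at hw
      exact hw hv
  have hres := Pool.Agent.Results.MP_c8786f_co.ElevenNewEdges.result V G.edgeSet (sr G) (ds G) 0
    (fun i => i.elim0) (fun i => i.elim0) (fun i => i.elim0)
    (fun X h1 h2 _ => by rw [card_boundary]; exact mader_edge G hc het hd h1 h2) ?_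
  · obtain ⟨⟨f, hf, hf2⟩, -⟩ := hres
    refine ⟨ext G f, circ_ext G hf, fun u v huv => ?_⟩
    rw [ext_abs G f huv]
    exact hf2 _
  · intro X _ hX
    refine ⟨0, Or.inr ?_⟩
    obtain ⟨v, hv, hbv⟩ := bd_single G hc het hd (X 0) (hX 0).1
    have h1 : 1 < (boundary (sr G) (ds G) (X 0)).card := by rw [(hX 0).1]; norm_num
    obtain ⟨e, he, e', he', hne⟩ := one_lt_card.1 h1
    refine ⟨e, he, e', he', hne, ?_⟩
    have key : ∀ e ∈ boundary (sr G) (ds G) (X 0), ∀ Y : Finset V,
        (boundary (sr G) (ds G) Y).card = 3 → e ∈ boundary (sr G) (ds G) Y →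
        boundary (sr G) (ds G) Y = boundary (sr G) (ds G) (X 0) := by
      intro e he Y hY heY
      obtain ⟨u, hu, hbu⟩ := bd_single G hc het hd Y hY
      by_cases huv : u = v
      · rw [hbu, hbv, huv]
      · exfalso
        rw [hbv, mem_bd] at he
        rw [hbu, mem_bd] at heY
        simp only [mem_singleton] at he heY
        have hadj := adj_sd G e
        have : (sr G e = u ∧ ds G e = v) ∨ (sr G e = v ∧ ds G e = u) := by
          by_cases a : sr G e = u <;> by_cases b : ds G e = u <;> by_cases c : sr G e = v <;>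
            by_cases d : ds G e = v <;> simp_all
        rcases this with ⟨a, b⟩ | ⟨a, b⟩
        · rw [a, b] at hadj
          exact hnadj u v hu hv hadj
        · rw [a, b] at hadj
          exact hnadj u v hu hv hadj.symm
    intro Y hY _ h
    rcases h with h | h
    · exact key e he Y hY h
    · exact key e' he' Y hY h

/-- edge-transitive graphs which are not vertex-transitive -/
theorem et_flow (hc : G.Connected)
    (het : ∀ u v x y, G.Adj u v → G.Adj x y → ∃ g : G ≃g G, s(g u, g v) = s(x, y))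
    (hd : ∀ v, 3 ≤ G.degree v) (hnv : ¬ ∀ u v, ∃ g : G ≃g G, g u = v) :
    ∃ f, Circ G f ∧ ∀ u v, G.Adj u v → 1 ≤ |f u v| ∧ |f u v| ≤ 4 := by
  classical
  by_cases h : ∀ v, G.degree v = 3
  · refine cubic_bip (fun v => by rw [ncard_nb]; exact h v) (et_bip G het (fun v => ?_) hnv)
    have h1 : 0 < G.degree v := by have := hd v; omega
    rw [← SimpleGraph.card_neighborFinset_eq_degree, card_pos] at h1
    obtain ⟨z, hz⟩ := h1
    rw [SimpleGraph.mem_neighborFinset] at hz
    exact ⟨z, hz⟩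
  · push Not at h
    exact et_mixed G hc het hd h

end

end Pool.Agent.K4H96.VT
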