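import Pool.Agent.K4H96.VT.Main
import Mathlib.Combinatorics.SimpleGraph.Hall
import Mathlib.Combinatorics.SimpleGraph.Coloring.Constructions

set_option autoImplicit false
set_option linter.unusedSectionVars false

/-! # Even subgraphs, perfect matchings of regular bipartite graphs, 4-flows of cubic graphs with an
even 2-factor -/

namespace Pool.Agent.K4H96.VT

open Finset

variable {V : Type} [Fintype V] [DecidableEq V]

lemma ncard_nb (K : SimpleGraph V) [DecidableRel K.Adj] (v : V) :
    (K.neighborSet v).ncard = K.degree v := by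
  rw [Set.ncard_eq_toFinset_card', ← SimpleGraph.card_neighborFinset_eq_degree]
  rfl

/-- the support of a unit circulation has even degrees -/
lemma even_supp {G : SimpleGraph V} {w : V → V → ℤ} (hw : Circ G w) (hu : Uni w) (x : V) :
    Even ({y | w x y ≠ 0} : Set V).ncard := by
  classical
  have h1 : ({y | w x y ≠ 0} : Set V).ncard = (univ.filter (fun y => w x y ≠ 0)).card := by
    rw [Set.ncard_eq_toFinset_card']
    congr 1
    ext y
    simp
  rw [h1, ← ZMod.natCast_eq_zero_iff_even, card_filter]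
  have h2 := congrArg (Int.cast : ℤ → ZMod 2) (hw.bal x)
  rw [Int.cast_sum, Int.cast_zero] at h2
  rw [← h2]
  push_cast
  refine Finset.sum_congr rfl fun y _ => ?_
  rcases hu x y with h | h | h <;> rw [h]
  · simp
  · simp
  · simp

/-- in a graph with even degrees all cuts are even -/
lemma even_dg (K : SimpleGraph V) (h : ∀ v, Even (K.neighborSet v).ncard) (X : Finset V) :
    Even (dg K X) := by
  classical
  rw [← ZMod.natCast_eq_zero_iff_even, dg_out]
  push_cast
  have h1 : ∀ x ∈ X, (out K X x : ZMod 2) = ∑ y ∈ X, if K.Adj x y then (1 : ZMod 2) else 0 := by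
    intro x _
    have h2 := deg_out K X x
    have h3 : ((K.degree x : ℕ) : ZMod 2) = 0 := by
      rw [ZMod.natCast_eq_zero_iff_even, ← ncard_nb]
      exact h x
    rw [h2, Nat.cast_add] at h3
    have h4 : (((univ.filter (fun v => v ∈ X ∧ K.Adj x v)).card : ℕ) : ZMod 2) =
        ∑ y ∈ X, if K.Adj x y then (1 : ZMod 2) else 0 := by
      rw [Finset.sum_ite, Finset.sum_const_zero, add_zero, Finset.sum_const, nsmul_one]
      congr 2
      ext y
      simp
    rw [h4] at h3
    have h5 := eq_neg_of_add_eq_zero_right h3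
    rw [h5, CharTwo.neg_eq]
  rw [Finset.sum_congr rfl h1, ← Finset.sum_product']
  refine Finset.sum_involution (fun p _ => p.swap) ?_ ?_ ?_ ?_
  · intro p hp
    have h6 := K.adj_comm p.1 p.2
    simp only [Prod.fst_swap, Prod.snd_swap]
    rw [if_congr h6 rfl rfl]
    exact CharTwo.add_self_eq_zero _
  · intro p hp hne h6
    have h7 : p.2 = p.1 := congrArg Prod.fst h6
    simp only [h7, SimpleGraph.irrefl, if_false] at hne
    exact hne rfl
  · intro p hp
    rw [mem_product] at hp ⊢
    exact ⟨hp.2, hp.1⟩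
  · intro p hp
    exact Prod.swap_swap p

lemma exists_cycle (K : SimpleGraph V) (h : ∀ v, Even (K.neighborSet v).ncard) {u v : V}
    (huv : K.Adj u v) : ∃ (a : V) (c : K.Walk a a), c.IsCycle ∧ s(u, v) ∈ c.edges := by
  classical
  by_contra hcon
  push Not at hcon
  have hb : K.IsBridge s(u, v) :=
    (SimpleGraph.isBridge_iff_forall_cycle_notMem (e := s(u, v)) huv).2 fun a p hp => hcon a p hp
  rw [SimpleGraph.isBridge_iff] at hb
  let X : Finset V := univ.filter (fun x => (K.deleteEdges {s(u, v)}).Reachable u x)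
  have hu : u ∈ X := mem_filter.2 ⟨mem_univ _, SimpleGraph.Reachable.refl _⟩
  have hv : v ∉ X := fun h => hb (mem_filter.1 h).2
  have h1 : dg K X = 1 := by
    rw [dg_eq, card_eq_one]
    refine ⟨(u, v), ?_⟩
    ext p
    rw [mem_filter, mem_singleton]
    constructor
    · rintro ⟨-, h1, h2, h3⟩
      by_cases h4 : s(p.1, p.2) = s(u, v)
      · rw [Sym2.eq_iff] at h4
        rcases h4 with ⟨a, b⟩ | ⟨a, b⟩
        · exact Prod.ext a b
        · rw [a] at h1
          exact absurd h1 hv
      · exfalso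
        refine h2 (mem_filter.2 ⟨mem_univ _, (mem_filter.1 h1).2.trans ?_⟩)
        refine SimpleGraph.Adj.reachable ?_
        rw [SimpleGraph.deleteEdges_adj]
        exact ⟨h3, h4⟩
    · rintro rfl
      exact ⟨mem_univ _, hu, hv, huv⟩
  have h2 := even_dg K h X
  rw [h1] at h2
  exact absurd h2 (by decide)

lemma wc_ne_iff {G : SimpleGraph V} {a : V} (c : G.Walk a a) (hc : c.edges.Nodup) {u v : V} :
    wc c u v ≠ 0 ↔ s(u, v) ∈ c.edges := ⟨wc_mem c, wc_ne c hc⟩

/-- graphs with even degrees have nowhere-zero 2-flows -/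
theorem even_circ (n : ℕ) : ∀ K : SimpleGraph V, K.edgeSet.ncard ≤ n →
    (∀ v, Even (K.neighborSet v).ncard) →
    ∃ w, Circ K w ∧ Uni w ∧ ∀ u v, K.Adj u v → w u v ≠ 0 := by
  classical
  induction n with
  | zero =>
    intro K hK _
    have h0 : K.edgeSet = ∅ := by
      rwa [Nat.le_zero, Set.ncard_eq_zero] at hK
    refine ⟨fun _ _ => 0, ⟨fun _ _ => by simp, fun _ _ _ => rfl, fun _ => by simp⟩,
      fun _ _ => Or.inl rfl, fun u v h => ?_⟩
    have h1 : s(u, v) ∈ K.edgeSet := h
    rw [h0] at h1
    exact absurd h1 (Set.notMem_empty _)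
  | succ n ih =>
    intro K hK hev
    by_cases hE : ∃ u v, K.Adj u v
    · obtain ⟨u, v, huv⟩ := hE
      obtain ⟨a, c, hcy, hm⟩ := exists_cycle K hev huv
      have hnd := hcy.edges_nodup
      let K' : SimpleGraph V := K.deleteEdges {e | e ∈ c.edges}
      have hK' : ∀ x y, K'.Adj x y ↔ K.Adj x y ∧ s(x, y) ∉ c.edges := by
        intro x y
        rw [SimpleGraph.deleteEdges_adj]
        rfl
      have hlt : K'.edgeSet.ncard ≤ n := by
        have h1 : K'.edgeSet ⊂ K.edgeSet := by
          refine ⟨SimpleGraph.edgeSet_mono (SimpleGraph.deleteEdges_le _), fun h => ?_⟩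
          have h2 : s(u, v) ∈ K'.edgeSet := h huv
          exact ((hK' u v).1 h2).2 hm
        have h2 := Set.ncard_lt_ncard h1 (Set.toFinite _)
        omega
      have hev' : ∀ x, Even (K'.neighborSet x).ncard := by
        intro x
        have h1 : K'.neighborSet x = K.neighborSet x \ {y | wc c x y ≠ 0} := by
          ext y
          rw [SimpleGraph.mem_neighborSet, hK', Set.mem_sdiff, SimpleGraph.mem_neighborSet]
          have := wc_ne_iff c hnd (u := x) (v := y)
          rw [Set.mem_setOf_eq, this]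
        have h2 : ({y | wc c x y ≠ 0} : Set V) ⊆ K.neighborSet x := by
          intro y hy
          by_contra h
          exact hy ((circ_wc c).supp x y h)
        have h3 := even_supp (circ_wc c) (uni_wc c hnd) x
        have h4 := hev x
        rw [h1, Set.ncard_sdiff h2 (Set.toFinite _)]
        obtain ⟨p, hp⟩ := h4
        obtain ⟨q, hq⟩ := h3
        rw [hp, hq]
        exact ⟨p - q, by omega⟩
      obtain ⟨w, hw, hu, hn⟩ := ih K' hlt hev'
      · have hz : ∀ x y, s(x, y) ∈ c.edges → w x y = 0 := fun x y h =>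
          hw.supp x y fun h' => ((hK' x y).1 h').2 h
        have hz' : ∀ x y, s(x, y) ∉ c.edges → wc c x y = 0 := by
          intro x y h
          by_contra h'
          exact h (wc_mem c h')
        have hc := circ_wc c
        refine ⟨fun x y => w x y + wc c x y, ⟨fun x y => ?_, fun x y h => ?_, fun x => ?_⟩,
          fun x y => ?_, fun x y h => ?_⟩
        · show w x y + wc c x y = - (w y x + wc c y x)
          rw [hw.anti x y, hc.anti x y]; ring
        · show w x y + wc c x y = 0
          rw [hc.supp x y h, hw.supp x y fun h' => h ((hK' x y).1 h').1, add_zero]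
        · show ∑ y, (w x y + wc c x y) = 0
          rw [Finset.sum_add_distrib, hw.bal, hc.bal, add_zero]
        · show w x y + wc c x y = 0 ∨ w x y + wc c x y = 1 ∨ w x y + wc c x y = -1
          by_cases h : s(x, y) ∈ c.edges
          · rw [hz x y h, zero_add]; exact uni_wc c hnd x y
          · rw [hz' x y h, add_zero]; exact hu x y
        · show w x y + wc c x y ≠ 0
          by_cases h' : s(x, y) ∈ c.edges
          · rw [hz x y h', zero_add]; exact wc_ne c hnd h'
          · rw [hz' x y h', add_zero]; exact hn x y ((hK' x y).2 ⟨h, h'⟩)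
    · refine ⟨fun _ _ => 0, ⟨fun _ _ => by simp, fun _ _ _ => rfl, fun _ => by simp⟩,
        fun _ _ => Or.inl rfl, fun u v h => absurd ⟨u, v, h⟩ hE⟩

/-- two subgraphs with even degrees which cover the graph -/
theorem flow_of_even {G : SimpleGraph V} (K L : SimpleGraph V) (hK : K ≤ G) (hL : L ≤ G)
    (hKe : ∀ v, Even (K.neighborSet v).ncard) (hLe : ∀ v, Even (L.neighborSet v).ncard)
    (hKL : ∀ u v, G.Adj u v → K.Adj u v ∨ L.Adj u v) :
    ∃ f, Circ G f ∧ ∀ u v, G.Adj u v → 1 ≤ |f u v| ∧ |f u v| ≤ 4 := by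
  obtain ⟨w, hw, hu, hn⟩ := even_circ _ K le_rfl hKe
  obtain ⟨w', hw', hu', hn'⟩ := even_circ _ L le_rfl hLe
  refine ⟨fun x y => w x y + 2 * w' x y, ⟨fun x y => ?_, fun x y h => ?_, fun x => ?_⟩,
    fun x y h => ?_⟩
  · show w x y + 2 * w' x y = - (w y x + 2 * w' y x)
    rw [hw.anti x y, hw'.anti x y]; ring
  · show w x y + 2 * w' x y = 0
    rw [hw.supp x y fun h' => h (hK h'), hw'.supp x y fun h' => h (hL h')]; ring
  · show ∑ y, (w x y + 2 * w' x y) = 0
    rw [Finset.sum_add_distrib, ← Finset.mul_sum, hw.bal, hw'.bal]; ring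
  · show 1 ≤ |w x y + 2 * w' x y| ∧ |w x y + 2 * w' x y| ≤ 4
    have h1 : w x y ≠ 0 ∨ w' x y ≠ 0 := (hKL x y h).imp (hn x y) (hn' x y)
    rcases hu x y with a | a | a <;> rcases hu' x y with b | b | b <;> rw [a, b] at h1 ⊢ <;>
      simp at h1 ⊢

/-- perfect matchings of regular bipartite graphs -/
theorem perfect {K : SimpleGraph V} {d : ℕ} (hd : 1 ≤ d) (hK : ∀ v, (K.neighborSet v).ncard = d)
    (hc : K.Colorable 2) : ∃ μ : V → V, (∀ v, K.Adj v (μ v)) ∧ ∀ v, μ (μ v) = v := by
  classical
  have hb : K.IsBipartite := hc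
  obtain ⟨p, q, hpq⟩ := hb.exists_isBipartiteWith
  have hH : ∀ s : Set V, s.ncard ≤ (⋃ x ∈ s, K.neighborSet x).ncard := by
    intro s
    have hs : s.ncard = s.toFinset.card := Set.ncard_eq_toFinset_card' s
    set N : Finset V := univ.filter (fun y => ∃ x ∈ s, K.Adj x y) with hN
    have hNc : (⋃ x ∈ s, K.neighborSet x).ncard = N.card := by
      rw [Set.ncard_eq_toFinset_card']
      congr 1
      ext y
      simp [hN]
    rw [hs, hNc]
    have hdeg : ∀ v, (univ.filter (fun y => K.Adj v y)).card = d := by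
      intro v
      rw [← hK v, ncard_nb, ← SimpleGraph.card_neighborFinset_eq_degree]
      congr 1
      ext y
      simp
    have h1 : s.toFinset.card * d ≤ N.card * d := by
      calc s.toFinset.card * d = ∑ x ∈ s.toFinset, (univ.filter (fun y => K.Adj x y)).card := by
            rw [Finset.sum_congr rfl fun x _ => hdeg x, Finset.sum_const, smul_eq_mul]
        _ ≤ ∑ x ∈ s.toFinset, (N.filter (fun y => K.Adj x y)).card := by
            refine Finset.sum_le_sum fun x hx => Finset.card_le_card ?_
            intro y hy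
            rw [mem_filter] at hy ⊢
            rw [Set.mem_toFinset] at hx
            exact ⟨mem_filter.2 ⟨mem_univ _, x, hx, hy.2⟩, hy.2⟩
        _ = ∑ y ∈ N, (s.toFinset.filter (fun x => K.Adj x y)).card := by
            simp only [card_filter]
            rw [Finset.sum_comm]
        _ ≤ ∑ y ∈ N, (univ.filter (fun x => K.Adj y x)).card := by
            refine Finset.sum_le_sum fun y _ => Finset.card_le_card ?_
            intro x hx
            rw [mem_filter] at hx ⊢
            exact ⟨mem_univ _, hx.2.symm⟩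
        _ = N.card * d := by
            rw [Finset.sum_congr rfl fun x _ => hdeg x, Finset.sum_const, smul_eq_mul]
    exact Nat.le_of_mul_le_mul_right h1 (by omega)
  obtain ⟨M, hM⟩ := SimpleGraph.exists_isPerfectMatching_of_forall_ncard_le hpq hH
  have h2 : ∀ v, ∃! w, M.Adj v w := SimpleGraph.Subgraph.isPerfectMatching_iff.1 hM
  choose μ h3 h4 using h2
  refine ⟨μ, fun v => (h3 v).adj_sub, fun v => ?_⟩
  exact (h4 (μ v) v (h3 v).symm).symm

/-- cubic graphs with a bipartite 2-factor -/
theorem cubic_even {G K : SimpleGraph V} (hG : ∀ v, (G.neighborSet v).ncard = 3) (hK : K ≤ G)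
    (hK2 : ∀ v, (K.neighborSet v).ncard = 2) (hc : K.Colorable 2) :
    ∃ f, Circ G f ∧ ∀ u v, G.Adj u v → 1 ≤ |f u v| ∧ |f u v| ≤ 4 := by
  classical
  obtain ⟨μ, h1, h2⟩ := perfect (by norm_num) hK2 hc
  let L : SimpleGraph V :=
    { Adj := fun u v => G.Adj u v ∧ (K.Adj u v → v = μ u)
      symm := ⟨fun u v h => ⟨h.1.symm, fun h' => by
        rw [h.2 h'.symm, h2]⟩⟩
      loopless := ⟨fun u h => G.loopless.irrefl u h.1⟩ }
  have hL : ∀ u v, L.Adj u v ↔ G.Adj u v ∧ (K.Adj u v → v = μ u) := fun u v => Iff.rfl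
  refine flow_of_even K L hK (fun u v h => h.1) (fun v => by rw [hK2]; decide) ?_ ?_
  · intro v
    have h3 : L.neighborSet v = G.neighborSet v \ (K.neighborSet v \ {μ v}) := by
      ext y
      simp only [SimpleGraph.mem_neighborSet, hL, Set.mem_sdiff, Set.mem_singleton_iff]
      tauto
    have h4 : (K.neighborSet v \ {μ v}).ncard = 1 := by
      rw [Set.ncard_sdiff (by
        intro y hy
        rw [Set.mem_singleton_iff] at hy
        rw [hy]
        exact h1 v) (Set.toFinite _), hK2, Set.ncard_singleton]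
    rw [h3, Set.ncard_sdiff (by
      intro y hy
      exact hK hy.1) (Set.toFinite _), hG, h4]
    decide
  · intro u v h
    by_cases h' : K.Adj u v
    · exact Or.inl h'
    · exact Or.inr ⟨h, fun h'' => absurd h'' h'⟩

/-- cubic bipartite graphs -/
theorem cubic_bip {G : SimpleGraph V} (hG : ∀ v, (G.neighborSet v).ncard = 3)
    (hc : G.Colorable 2) :
    ∃ f, Circ G f ∧ ∀ u v, G.Adj u v → 1 ≤ |f u v| ∧ |f u v| ≤ 4 := by
  classical
  obtain ⟨μ, h1, h2⟩ := perfect (by norm_num) hG hc
  let K : SimpleGraph V :=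
    { Adj := fun u v => G.Adj u v ∧ v ≠ μ u
      symm := ⟨fun u v h => ⟨h.1.symm, fun h' => h.2 (by rw [h', h2])⟩⟩
      loopless := ⟨fun u h => G.loopless.irrefl u h.1⟩ }
  have hK : ∀ u v, K.Adj u v ↔ G.Adj u v ∧ v ≠ μ u := fun u v => Iff.rfl
  have hKG : K ≤ G := fun u v h => h.1
  refine cubic_even hG hKG ?_ ?_
  · intro v
    have h3 : K.neighborSet v = G.neighborSet v \ {μ v} := by
      ext y
      simp only [SimpleGraph.mem_neighborSet, hK, Set.mem_sdiff, Set.mem_singleton_iff]
    rw [h3, Set.ncard_sdiff (by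
        intro y hy
        rw [Set.mem_singleton_iff] at hy
        rw [hy]
        exact h1 v) (Set.toFinite _), hG, Set.ncard_singleton]
  · exact hc.mono_left hKG

end Pool.Agent.K4H96.VT
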