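import Pool.Agent.K4H96.VT.Orbit

set_option autoImplicit false
set_option linter.unusedSectionVars false

/-! # Invariant 2-factors of vertex-transitive cubic graphs which are not edge-transitive -/

namespace Pool.Agent.K4H96.VT

open Finset

variable {V : Type} [Fintype V] [DecidableEq V]

/-- an invariant 2-factor -/
theorem factor (G : SimpleGraph V) (hvt : ∀ u v, ∃ g : G ≃g G, g u = v)
    (hd : ∀ v, (G.neighborSet v).ncard = 3)
    (hne : ¬ ∀ u v x y, G.Adj u v → G.Adj x y → ∃ g : G ≃g G, s(g u, g v) = s(x, y)) :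
    ∃ K : SimpleGraph V, K ≤ G ∧ (∀ (g : G ≃g G) (u v : V), K.Adj u v → K.Adj (g u) (g v)) ∧
      ∀ v, (K.neighborSet v).ncard = 2 := by
  classical
  push Not at hne
  obtain ⟨a, b, x, y, hab, hxy, hno⟩ := hne
  let O : V → V → Prop := fun p q => ∃ g : G ≃g G, s(g a, g b) = s(p, q)
  have hOs : ∀ p q, O p q → O q p := by
    rintro p q ⟨g, hg⟩
    exact ⟨g, hg.trans Sym2.eq_swap⟩
  have hOG : ∀ p q, O p q → G.Adj p q := by
    rintro p q ⟨g, hg⟩
    have h1 : G.Adj (g a) (g b) := g.map_adj_iff.2 hab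
    have h2 : s(p, q) ∈ G.edgeSet := by
      rw [← hg]
      exact h1
    exact h2
  have hOi : ∀ (h : G ≃g G) p q, O p q → O (h p) (h q) := by
    rintro h p q ⟨g, hg⟩
    refine ⟨g.trans h, ?_⟩
    rw [Sym2.eq_iff] at hg
    rcases hg with ⟨e1, e2⟩ | ⟨e1, e2⟩
    · rw [← e1, ← e2]; rfl
    · rw [← e1, ← e2]; exact Sym2.eq_swap
  have hsub : ∀ p, ({q | O p q} : Set V) ⊆ G.neighborSet p := fun p q hq => hOG p q hq
  have hcard : ∀ p, ({q | O p q} : Set V).ncard = ({q | O x q} : Set V).ncard := by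
    intro p
    obtain ⟨g, hg⟩ := hvt x p
    have h1 : ({q | O p q} : Set V) = g '' {q | O x q} := by
      ext q
      constructor
      · intro hq
        refine ⟨g.symm q, ?_, g.apply_symm_apply q⟩
        have h2 := hOi g.symm p q hq
        rw [← hg, g.symm_apply_apply] at h2
        exact h2
      · rintro ⟨q', hq', rfl⟩
        have h2 := hOi g x q' hq'
        rw [hg] at h2
        exact h2
    rw [h1, Set.ncard_image_of_injective _ g.injective]
  have h3 : ({q | O x q} : Set V).ncard < 3 := by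
    rw [← hd x]
    refine Set.ncard_lt_ncard ⟨hsub x, fun h => ?_⟩ (Set.toFinite _)
    have h2 : O x y := h hxy
    obtain ⟨g, hg⟩ := h2
    exact hno g hg
  have h0 : 0 < ({q | O x q} : Set V).ncard := by
    rw [← hcard a]
    rw [Set.ncard_pos (Set.toFinite _)]
    exact ⟨b, SimpleGraph.Iso.refl, rfl⟩
  have h12 : ({q | O x q} : Set V).ncard = 1 ∨ ({q | O x q} : Set V).ncard = 2 := by omega
  rcases h12 with h1 | h2
  · let K : SimpleGraph V :=
      { Adj := fun p q => G.Adj p q ∧ ¬ O p q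
        symm := ⟨fun p q h => ⟨h.1.symm, fun h' => h.2 (hOs _ _ h')⟩⟩
        loopless := ⟨fun u h => G.loopless.irrefl u h.1⟩ }
    refine ⟨K, fun p q h => h.1, ?_, ?_⟩
    · intro g u v h
      refine ⟨g.map_adj_iff.2 h.1, fun h' => h.2 ?_⟩
      have h5 := hOi g.symm _ _ h'
      rwa [g.symm_apply_apply, g.symm_apply_apply] at h5
    · intro v
      have h5 : K.neighborSet v = G.neighborSet v \ {q | O v q} := by
        ext q
        rfl
      rw [h5, Set.ncard_sdiff (hsub v) (Set.toFinite _), hd, hcard, h1]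
  · let K : SimpleGraph V :=
      { Adj := fun p q => O p q
        symm := ⟨fun p q h => hOs _ _ h⟩
        loopless := ⟨fun u h => G.loopless.irrefl u (hOG _ _ h)⟩ }
    refine ⟨K, fun p q h => hOG _ _ h, fun g u v h => hOi g u v h, fun v => ?_⟩
    have h5 : K.neighborSet v = {q | O v q} := by
      ext q
      rfl
    rw [h5, hcard, h2]

/-- all circuits of an invariant 2-factor have the same length -/
theorem same_len (G K : SimpleGraph V) (hvt : ∀ u v, ∃ g : G ≃g G, g u = v)
    (hi : ∀ (g : G ≃g G) (u v : V), K.Adj u v → K.Adj (g u) (g v))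
    (hK : ∀ v, (K.neighborSet v).ncard = 2) :
    ∃ m, ∀ (a : V) (c : K.Walk a a), c.IsCycle → c.length = m := by
  classical
  by_cases hV : Nonempty V
  · obtain ⟨b⟩ := hV
    refine ⟨({x | K.Reachable b x} : Set V).ncard, fun a c hc => ?_⟩
    rw [cyc_len hK hc]
    obtain ⟨g, rfl⟩ := hvt b a
    have hmap : ∀ (h : G ≃g G) x y, K.Reachable x y → K.Reachable (h x) (h y) := by
      intro h x y hr
      let φ : K →g K := ⟨h, fun {u v} huv => hi h u v huv⟩
      exact hr.map φ
    have h1 : ({x | K.Reachable (g b) x} : Set V) = g '' {x | K.Reachable b x} := by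
      ext x
      constructor
      · intro hx
        refine ⟨g.symm x, ?_, g.apply_symm_apply x⟩
        have h2 := hmap g.symm _ _ hx
        rwa [g.symm_apply_apply] at h2
      · rintro ⟨x', hx', rfl⟩
        exact hmap g _ _ hx'
    rw [h1, Set.ncard_image_of_injective _ g.injective]
  · exact ⟨0, fun a => absurd ⟨a⟩ hV⟩

/-- vertex-transitive cubic graphs without nowhere-zero flows -/
theorem odd_factor (G : SimpleGraph V) (hvt : ∀ u v, ∃ g : G ≃g G, g u = v)
    (hd : ∀ v, (G.neighborSet v).ncard = 3)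
    (hne : ¬ ∀ u v x y, G.Adj u v → G.Adj x y → ∃ g : G ≃g G, s(g u, g v) = s(x, y))
    (hno : ¬ ∃ f, Circ G f ∧ ∀ u v, G.Adj u v → 1 ≤ |f u v| ∧ |f u v| ≤ 4) :
    ∃ K : SimpleGraph V, K ≤ G ∧ (∀ (g : G ≃g G) (u v : V), K.Adj u v → K.Adj (g u) (g v)) ∧
      (∀ v, (K.neighborSet v).ncard = 2) ∧
      ∃ m, Odd m ∧ ∀ (a : V) (c : K.Walk a a), c.IsCycle → c.length = m := by
  classical
  obtain ⟨K, hKG, hi, hK⟩ := factor G hvt hd hne
  obtain ⟨m, hm⟩ := same_len G K hvt hi hK
  refine ⟨K, hKG, hi, hK, m, ?_, hm⟩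
  by_contra hodd
  rw [Nat.not_odd_iff_even] at hodd
  exact hno (cubic_even hd hKG hK (colorable hK fun a c hc => by rw [hm a c hc]; exact hodd))

end Pool.Agent.K4H96.VT
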