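import Pool.Agent.K4H96.VT.Circ

set_option autoImplicit false
set_option linter.unusedSectionVars false

/-! # Nowhere-zero flows from edge cuts avoiding short circuits -/

namespace Pool.Agent.K4H96.VT

open Finset

variable {V : Type} [Fintype V] [DecidableEq V]

/-- the number of the edges of the support of `w` with the property `P` -/
noncomputable def cnt (w : V → V → ℤ) (P : V → V → Prop) : ℕ := by
  classical
  exact ((univ : Finset (V × V)).filter (fun p => w p.1 p.2 = 1 ∧ P p.1 p.2)).card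

/-- edges on circulations with at most eleven edges -/
def R1 (G : SimpleGraph V) (u v : V) : Prop :=
  ∃ w, Circ G w ∧ Uni w ∧ cnt w (fun _ _ => True) ≤ 11 ∧ w u v ≠ 0

/-- edges on circulations with at most eleven edges not in `R1` -/
def R2 (G : SimpleGraph V) (u v : V) : Prop :=
  ∃ w, Circ G w ∧ Uni w ∧ cnt w (fun a b => ¬ R1 G a b) ≤ 11 ∧ w u v ≠ 0

lemma R1.symm {G : SimpleGraph V} {u v : V} (h : R1 G u v) : R1 G v u := by
  obtain ⟨w, h1, h2, h3, h4⟩ := h
  refine ⟨w, h1, h2, h3, ?_⟩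
  rw [h1.anti]
  exact neg_ne_zero.2 h4

lemma R2.symm {G : SimpleGraph V} {u v : V} (h : R2 G u v) : R2 G v u := by
  obtain ⟨w, h1, h2, h3, h4⟩ := h
  refine ⟨w, h1, h2, h3, ?_⟩
  rw [h1.anti]
  exact neg_ne_zero.2 h4

lemma R2.adj {G : SimpleGraph V} {u v : V} (h : R2 G u v) : G.Adj u v := by
  obtain ⟨w, h1, h2, h3, h4⟩ := h
  by_contra hc
  exact h4 (h1.supp _ _ hc)

lemma cnt_mono {w : V → V → ℤ} {P Q : V → V → Prop} (h : ∀ u v, P u v → Q u v) :
    cnt w P ≤ cnt w Q := by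
  classical
  unfold cnt
  refine Finset.card_le_card ?_
  intro p hp
  exact mem_filter.2 ⟨mem_univ _, (mem_filter.1 hp).2.1, h _ _ (mem_filter.1 hp).2.2⟩

lemma cnt_le {w : V → V → ℤ} {P : V → V → Prop} (S : Finset (V × V))
    (h : ∀ p : V × V, w p.1 p.2 = 1 → P p.1 p.2 → p ∈ S) : cnt w P ≤ S.card := by
  classical
  unfold cnt
  refine Finset.card_le_card ?_
  intro p hp
  exact h p (mem_filter.1 hp).2.1 (mem_filter.1 hp).2.2

lemma R1.r2 {G : SimpleGraph V} {u v : V} (h : R1 G u v) : R2 G u v := by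
  obtain ⟨w, h1, h2, h3, h4⟩ := h
  exact ⟨w, h1, h2, (cnt_mono fun _ _ _ => trivial).trans h3, h4⟩

section

variable (G : SimpleGraph V) [DecidableRel G.Adj]

/-- the support of `w` as a set of edges -/
noncomputable def sup (w : V → V → ℤ) : Finset G.edgeSet := by
  classical
  exact (univ : Finset G.edgeSet).filter (fun e => w (sr G e) (ds G e) ≠ 0)

lemma mem_sup {w : V → V → ℤ} (e : G.edgeSet) : e ∈ sup G w ↔ w (sr G e) (ds G e) ≠ 0 := by
  unfold sup
  simp

lemma card_sup {w : V → V → ℤ} (hw : Circ G w) (hu : Uni w) :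
    (sup G w).card = cnt w (fun _ _ => True) := by
  classical
  have h := card_supp G hw hu (fun _ _ => True) (fun _ _ h => h)
  have h2 : sup G w = (univ : Finset G.edgeSet).filter
      (fun e => w (sr G e) (ds G e) ≠ 0 ∧ True) := by
    ext e
    simp only [mem_sup, mem_filter, mem_univ, true_and, and_true]
  rw [h2, h]
  unfold cnt
  congr

lemma card_sup_sdiff {w : V → V → ℤ} (hw : Circ G w) (hu : Uni w) (F : Finset G.edgeSet)
    (hF : ∀ e, e ∈ F ↔ R1 G (sr G e) (ds G e)) :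
    (sup G w \ F).card = cnt w (fun a b => ¬ R1 G a b) := by
  classical
  have h := card_supp G hw hu (fun a b => ¬ R1 G a b) (fun _ _ h h' => h h'.symm)
  have h2 : sup G w \ F = (univ : Finset G.edgeSet).filter
      (fun e => w (sr G e) (ds G e) ≠ 0 ∧ ¬ R1 G (sr G e) (ds G e)) := by
    ext e
    simp only [mem_sdiff, mem_sup, hF, mem_filter, mem_univ, true_and]
  rw [h2, h]
  unfold cnt
  congr

lemma isFlow_of {w : V → V → ℤ} (hw : Circ G w) :
    Pool.Agent.Results.MP_c8786f_co.ElevenNewEdges.IsFlow (sr G) (ds G)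
      (fun e => w (sr G e) (ds G e)) := by
  rw [Pool.Agent.Results.MP_c8786f_co.ElevenNewEdges.isFlow_iff]
  intro v
  rw [sum_edges G hw.anti hw.supp v]
  exact hw.bal v

/-- an antisymmetric function from a function on the edges -/
noncomputable def ext (f : G.edgeSet → ℤ) (u v : V) : ℤ :=
  if h : G.Adj u v then (if sr G ⟨s(u, v), h⟩ = u then f ⟨s(u, v), h⟩ else - f ⟨s(u, v), h⟩) else 0

lemma ext_sd (f : G.edgeSet → ℤ) (e : G.edgeSet) : ext G f (sr G e) (ds G e) = f e := by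
  unfold ext
  have h1 := adj_sd G e
  have h2 : (⟨s(sr G e, ds G e), h1⟩ : G.edgeSet) = e := Subtype.ext (mk_sd G e)
  rw [dif_pos h1, h2, if_pos rfl]

lemma ext_anti (f : G.edgeSet → ℤ) (u v : V) : ext G f u v = - ext G f v u := by
  unfold ext
  by_cases h : G.Adj u v
  · have h2 : (⟨s(v, u), h.symm⟩ : G.edgeSet) = ⟨s(u, v), h⟩ := Subtype.ext Sym2.eq_swap
    rw [dif_pos h, dif_pos h.symm, h2]
    have h3 := mk_sd G ⟨s(u, v), h⟩
    simp only [Sym2.eq_iff] at h3
    rcases h3 with ⟨a, b⟩ | ⟨a, b⟩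
    · rw [if_pos a, if_neg (by rw [a]; exact h.ne)]
      ring
    · rw [if_neg (by rw [a]; exact h.ne'), if_pos a]
  · rw [dif_neg h, dif_neg (fun h' => h h'.symm)]
    ring

lemma ext_abs (f : G.edgeSet → ℤ) {u v : V} (h : G.Adj u v) :
    |ext G f u v| = |f ⟨s(u, v), h⟩| := by
  unfold ext
  rw [dif_pos h]
  split_ifs
  · rfl
  · rw [abs_neg]

lemma circ_ext {f : G.edgeSet → ℤ}
    (hf : Pool.Agent.Results.MP_c8786f_co.ElevenNewEdges.IsFlow (sr G) (ds G) f) :
    Circ G (ext G f) := by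
  have hs : ∀ u v, ¬ G.Adj u v → ext G f u v = 0 := by
    intro u v h
    unfold ext
    rw [dif_neg h]
  refine ⟨ext_anti G f, hs, fun u => ?_⟩
  rw [← sum_edges G (ext_anti G f) hs u]
  rw [Pool.Agent.Results.MP_c8786f_co.ElevenNewEdges.isFlow_iff] at hf
  refine (Finset.sum_congr rfl fun e _ => ?_).trans (hf u)
  rw [ext_sd]

/-- **Nowhere-zero flows**: if all edge cuts with at most three edges meet `R2` -/
theorem flow_of_cuts
    (h : ∀ X : Finset V, X.Nonempty → X ≠ univ → (∀ u ∈ X, ∀ v, v ∉ X → ¬ R2 G u v) →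
      4 ≤ dg G X) :
    ∃ f, Circ G f ∧ ∀ u v, G.Adj u v → 1 ≤ |f u v| ∧ |f u v| ≤ 4 := by
  classical
  let F1 : Finset G.edgeSet := univ.filter (fun e => R1 G (sr G e) (ds G e))
  have hF1 : ∀ e, e ∈ F1 ↔ R1 G (sr G e) (ds G e) := fun e => by simp [F1]
  let C1 : Finset (Finset G.edgeSet) :=
    univ.filter (fun C => ∃ w, Circ G w ∧ Uni w ∧ sup G w = C ∧ C.card ≤ 11)
  let C2 : Finset (Finset G.edgeSet) :=
    univ.filter (fun C => ∃ w, Circ G w ∧ Uni w ∧ sup G w = C ∧ (C \ F1).card ≤ 11)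
  let L : List (Finset G.edgeSet) := C1.toList ++ C2.toList
  have hL1 : ∀ i : Fin L.length, i.1 < C1.toList.length → L.get i ∈ C1 := by
    intro i hi
    rw [List.get_eq_getElem, List.getElem_append_left hi]
    exact Finset.mem_toList.1 (List.getElem_mem _)
  have hL2 : ∀ i : Fin L.length, ¬ i.1 < C1.toList.length → L.get i ∈ C2 := by
    intro i hi
    rw [List.get_eq_getElem, List.getElem_append_right (not_lt.1 hi)]
    exact Finset.mem_toList.1 (List.getElem_mem _)
  have hC1 : ∀ C ∈ C1, ∃ i : Fin L.length, i.1 < C1.toList.length ∧ L.get i = C := by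
    intro C hC
    obtain ⟨j, hj, hj2⟩ := List.getElem_of_mem (Finset.mem_toList.2 hC)
    have hjL : j < L.length := by
      simp only [L, List.length_append]; omega
    refine ⟨⟨j, hjL⟩, hj, ?_⟩
    rw [List.get_eq_getElem, List.getElem_append_left hj]
    exact hj2
  have hC2 : ∀ C ∈ C2, ∃ i : Fin L.length, L.get i = C := by
    intro C hC
    have : C ∈ L := List.mem_append_right _ (Finset.mem_toList.2 hC)
    obtain ⟨j, hj, hj2⟩ := List.getElem_of_mem this
    exact ⟨⟨j, hj⟩, hj2⟩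
  suffices hs : ∃ f : G.edgeSet → ℤ,
      Pool.Agent.Results.MP_c8786f_co.ElevenNewEdges.IsFlow (sr G) (ds G) f ∧
        ∀ e, 1 ≤ |f e| ∧ |f e| ≤ 4 by
    obtain ⟨f, hf, hf2⟩ := hs
    refine ⟨ext G f, circ_ext G hf, fun u v huv => ?_⟩
    rw [ext_abs G f huv]
    exact hf2 _
  refine Pool.Agent.Results.MP_c8786f_co.ElevenNewEdges.meetsThreeCuts V G.edgeSet
    (sr G) (ds G) L.length (fun i => L.get i) ?_ ?_ ?_
  · intro i
    have key : ∃ w, Circ G w ∧ Uni w ∧ sup G w = L.get i := by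
      by_cases hi : i.1 < C1.toList.length
      · obtain ⟨w, a, b, c, -⟩ := (mem_filter.1 (hL1 i hi)).2
        exact ⟨w, a, b, c⟩
      · obtain ⟨w, a, b, c, -⟩ := (mem_filter.1 (hL2 i hi)).2
        exact ⟨w, a, b, c⟩
    obtain ⟨w, a, b, c⟩ := key
    refine ⟨fun e => w (sr G e) (ds G e), isFlow_of G a, fun e => b _ _, fun e => ?_⟩
    rw [← c, mem_sup]
  · intro i
    by_cases hi : i.1 < C1.toList.length
    · obtain ⟨w, a, b, c, d⟩ := (mem_filter.1 (hL1 i hi)).2
      exact (Finset.card_le_card sdiff_subset).trans d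
    · obtain ⟨w, a, b, c, d⟩ := (mem_filter.1 (hL2 i hi)).2
      refine (Finset.card_le_card ?_).trans d
      refine Finset.sdiff_subset_sdiff (Finset.Subset.refl _) ?_
      intro e he
      obtain ⟨w', a', b', c', d'⟩ := (hF1 e).1 he
      have hm : sup G w' ∈ C1 := mem_filter.2 ⟨mem_univ _, w', a', b', rfl, by
        rw [card_sup G a' b']; exact c'⟩
      obtain ⟨j, hj, hj2⟩ := hC1 _ hm
      refine mem_biUnion.2 ⟨j, mem_filter.2 ⟨mem_univ _, ?_⟩, ?_⟩
      · exact Fin.lt_def.2 (lt_of_lt_of_le hj (not_lt.1 hi))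
      · rw [hj2, mem_sup]
        exact d'
  · intro X hX1 hX2 hX3
    rw [card_boundary]
    refine h X hX1 hX2 ?_
    intro u hu v hv hR
    have hadj := hR.adj
    obtain ⟨w, a, b, c, d⟩ := hR
    have hm : sup G w ∈ C2 := mem_filter.2 ⟨mem_univ _, w, a, b, rfl, by
      rw [card_sup_sdiff G a b F1 hF1]; exact c⟩
    obtain ⟨j, hj⟩ := hC2 _ hm
    have h3 := mk_sd G ⟨s(u, v), hadj⟩
    simp only [Sym2.eq_iff] at h3
    have hdis := @Finset.disjoint_left _ _ _ |>.1 hX3
    refine @hdis ⟨s(u, v), hadj⟩ ?_ ?_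
    · unfold Pool.Agent.Results.MP_c8786f_co.ElevenNewEdges.boundary
      refine mem_filter.2 ⟨mem_univ _, ?_⟩
      rcases h3 with ⟨p, q⟩ | ⟨p, q⟩ <;> rw [p, q] <;> tauto
    · refine mem_biUnion.2 ⟨j, mem_univ _, ?_⟩
      rw [hj, mem_sup]
      rcases h3 with ⟨p, q⟩ | ⟨p, q⟩
      · rw [p, q]; exact d
      · rw [p, q, a.anti]; exact neg_ne_zero.2 d

end

end Pool.Agent.K4H96.VT
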