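import Pool.Agent.K4H96.VT.Atom

set_option autoImplicit false
set_option linter.unusedSectionVars false

/-! # Nowhere-zero 5-flows of vertex-transitive and edge-transitive graphs -/

namespace Pool.Agent.K4H96.VT

open Finset

variable {V : Type} [Fintype V] [DecidableEq V]

section

variable (G : SimpleGraph V) [DecidableRel G.Adj]

/-! ### invariance -/

lemma circ_comp {w : V → V → ℤ} (hw : Circ G w) (g : G ≃g G) :
    Circ G (fun u v => w (g u) (g v)) := by
  refine ⟨fun u v => hw.anti _ _, fun u v h => hw.supp _ _ ?_, fun u => ?_⟩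
  · rwa [g.map_adj_iff]
  · rw [← hw.bal (g u)]
    exact Fintype.sum_equiv g.toEquiv _ _ fun v => rfl

lemma uni_comp {w : V → V → ℤ} (hw : Uni w) (g : G ≃g G) :
    Uni (fun u v => w (g u) (g v)) := fun _ _ => hw _ _

lemma cnt_comp {w : V → V → ℤ} (P : V → V → Prop) (g : G ≃g G) :
    cnt (fun u v => w (g u) (g v)) (fun u v => P (g u) (g v)) = cnt w P := by
  classical
  unfold cnt
  refine Finset.card_bij (fun p _ => (g p.1, g p.2)) ?_ ?_ ?_
  · intro p hp
    exact mem_filter.2 ⟨mem_univ _, (mem_filter.1 hp).2⟩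
  · intro p _ q _ h
    have h1 := congrArg Prod.fst h
    have h2 := congrArg Prod.snd h
    exact Prod.ext (g.injective h1) (g.injective h2)
  · intro p hp
    refine ⟨(g.symm p.1, g.symm p.2), ?_, ?_⟩
    · refine mem_filter.2 ⟨mem_univ _, ?_⟩
      simp only [g.apply_symm_apply]
      exact (mem_filter.1 hp).2
    · simp only [g.apply_symm_apply]

lemma R1_comp (g : G ≃g G) {u v : V} (h : R1 G (g u) (g v)) : R1 G u v := by
  obtain ⟨w, h1, h2, h3, h4⟩ := h
  refine ⟨fun u v => w (g u) (g v), circ_comp G h1 g, uni_comp G h2 g, ?_, h4⟩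
  exact (cnt_comp G (w := w) (fun _ _ => True) g).le.trans h3

lemma R1_iff (g : G ≃g G) (u v : V) : R1 G (g u) (g v) ↔ R1 G u v := by
  constructor
  · exact R1_comp G g
  · intro h
    refine R1_comp G g.symm ?_
    rwa [g.symm_apply_apply, g.symm_apply_apply]

lemma R2_comp (g : G ≃g G) {u v : V} (h : R2 G (g u) (g v)) : R2 G u v := by
  obtain ⟨w, h1, h2, h3, h4⟩ := h
  refine ⟨fun u v => w (g u) (g v), circ_comp G h1 g, uni_comp G h2 g, ?_, h4⟩
  refine le_trans ?_ h3
  rw [← cnt_comp G (w := w) (fun a b => ¬ R1 G a b) g]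
  exact cnt_mono fun a b h => by rwa [R1_iff]

lemma R2_iff (g : G ≃g G) (u v : V) : R2 G (g u) (g v) ↔ R2 G u v := by
  constructor
  · exact R2_comp G g
  · intro h
    refine R2_comp G g.symm ?_
    rwa [g.symm_apply_apply, g.symm_apply_apply]

lemma R2_inv : Inv G (R2 G) := fun g u v h => (R2_iff G g u v).2 h

/-- edges of closed trails with at most eleven edges -/
lemma R1_of_walk {a : V} (c : G.Walk a a) (hc : c.edges.Nodup) (hl : c.length ≤ 11) {u v : V}
    (h : s(u, v) ∈ c.edges) : R1 G u v :=
  ⟨wc c, circ_wc c, uni_wc c hc, (cnt_wc c).trans hl, wc_ne c hc h⟩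

lemma R1_of_triangle {x y z : V} (h1 : G.Adj x y) (h2 : G.Adj y z) (h3 : G.Adj z x) :
    R1 G x y := by
  refine R1_of_walk G (SimpleGraph.Walk.cons h1 (.cons h2 (.cons h3 .nil))) ?_ ?_ ?_
  · simp only [SimpleGraph.Walk.edges_cons, SimpleGraph.Walk.edges_nil, List.nodup_cons,
      List.mem_cons, List.not_mem_nil, or_false, Sym2.eq_iff, not_or, not_false_eq_true,
      List.nodup_nil, and_true]
    have := h1.ne
    have := h2.ne
    have := h3.ne
    tauto
  · simp
  · simp

/-- walks along edges of `R` stay in admissible sets -/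
lemma stay {R : V → V → Prop} {X : Finset V} (hX : Adm R X) {a b : V} (p : G.Walk a b)
    (ha : a ∈ X) (hp : ∀ u v, s(u, v) ∈ p.edges → R u v) : ∀ x ∈ p.support, x ∈ X := by
  induction p with
  | nil => simpa using ha
  | @cons u v w h p ih =>
    intro x hx
    rw [SimpleGraph.Walk.support_cons, List.mem_cons] at hx
    rcases hx with rfl | hx
    · exact ha
    · refine ih ?_ (fun y z hyz => hp y z ?_) x hx
      · by_contra hv
        exact hX.av u ha v hv (hp u v (by simp))
      · rw [SimpleGraph.Walk.edges_cons]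
        exact List.mem_cons_of_mem _ hyz

/-- the cubic case -/
theorem cubic (hc : G.Connected) (hvt : ∀ u v, ∃ g : G ≃g G, g u = v)
    (hd : ∀ v, G.degree v = 3)
    (h11 : ∃ (a : V) (c : G.Walk a a), c.IsCycle ∧ c.length ≤ 11)
    (h23 : ∃ (a : V) (c : G.Walk a a), c.IsCycle ∧ c.length ≠ 3 ∧ c.length ≤ 23)
    (X : Finset V) (h1 : X.Nonempty) (h2 : X ≠ univ)
    (h3 : ∀ u ∈ X, ∀ v, v ∉ X → ¬ R2 G u v) : 4 ≤ dg G X := by
  classical
  by_contra hcon
  obtain ⟨Y, k, hY, hk, hkm, hmin⟩ := exists_atom G (R := R2 G) ⟨X, h1, h2, h3⟩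
  have h4 := hkm X ⟨h1, h2, h3⟩
  have h5 := mader G hc hvt hd hY.ne hY.nu
  have h6 : dg G Y = 3 := by omega
  have hk3 : k = 3 := by omega
  obtain ⟨x, hx⟩ := hY.ne
  have h7 : dg G Y = Y.card * out G Y x := by
    rw [dg_out, Finset.sum_const_nat (m := out G Y x)]
    intro y hy
    exact out_const G (R := R2 G) (fun _ _ h => h.symm) (R2_inv G) hkm hY hk hmin
      hvt hy hx
  rw [h6] at h7
  have hYc : Y.card = 1 ∧ out G Y x = 3 ∨ Y.card = 3 ∧ out G Y x = 1 := by
    have h8 : Y.card ∣ 3 := ⟨_, h7⟩
    have h9 := (Nat.dvd_prime Nat.prime_three).1 h8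
    rcases h9 with h9 | h9
    · left; rw [h9] at h7; exact ⟨h9, by omega⟩
    · right; rw [h9] at h7; exact ⟨h9, by omega⟩
  -- the block of a vertex
  have hblk : ∀ v : V, ∃ B : Finset V, v ∈ B ∧ Adm (R2 G) B ∧ B.card = Y.card ∧
      out G B v = out G Y x := by
    intro v
    obtain ⟨g, hg⟩ := hvt x v
    refine ⟨Y.image g, ?_, hY.image G (R2_inv G) g, card_im G g Y, ?_⟩
    · rw [← hg, mem_im]; exact hx
    · rw [← hg, out_image]
  rcases hYc with ⟨hY1, hY2⟩ | ⟨hY1, hY2⟩
  · -- a vertex without edges of `R2`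
    obtain ⟨a, c, hcy, hl⟩ := h11
    have hne : ¬ c.Nil := hcy.not_nil
    have h8 : s(a, c.snd) ∈ c.edges := by
      have := c.cons_tail_eq hne
      have h9 : s(a, c.snd) ∈ (SimpleGraph.Walk.cons (c.adj_snd hne) c.tail).edges := by
        rw [SimpleGraph.Walk.edges_cons]
        exact List.mem_cons_self
      rw [this] at h9
      exact h9
    have h9 := (R1_of_walk G c hcy.edges_nodup hl h8).r2
    obtain ⟨B, hB1, hB2, hB3, hB4⟩ := hblk a
    rw [hY1] at hB3
    obtain ⟨b, hb⟩ := card_eq_one.1 hB3
    refine hB2.av a hB1 c.snd ?_ h9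
    intro h10
    rw [hb, mem_singleton] at hB1 h10
    exact (c.adj_snd hne).ne (hB1.trans h10.symm)
  · -- a triangle
    obtain ⟨a, c, hcy, hl3, hl⟩ := h23
    -- in a block all pairs are adjacent
    have hadj : ∀ v B, v ∈ B → B.card = 3 → out G B v = 1 → ∀ u ∈ B, u ≠ v → G.Adj v u := by
      intro v B hv hB ho u hu huv
      have h8 := deg_out G B v
      rw [hd v, ho] at h8
      have h9 : (univ.filter (fun z => z ∈ B ∧ G.Adj v z)) ⊆ B.erase v := by
        intro z hz
        rw [mem_filter] at hz
        exact mem_erase.2 ⟨hz.2.2.ne', hz.2.1⟩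
      have h10 := eq_of_subset_of_card_le h9 (by rw [card_erase_of_mem hv]; omega)
      have h11 : u ∈ B.erase v := mem_erase.2 ⟨huv, hu⟩
      rw [← h10, mem_filter] at h11
      exact h11.2.2
    -- at most one edge at a vertex is not in `R1`
    have huniq : ∀ v u u', G.Adj v u → ¬ R1 G v u → G.Adj v u' → ¬ R1 G v u' → u = u' := by
      intro v u u' ha hr ha' hr'
      obtain ⟨g, hg⟩ := hvt x v
      set B := Y.image g with hBdef
      have hB3 : B.card = 3 := by rw [hBdef, card_im, hY1]
      have hmem : v ∈ B := by rw [← hg, hBdef, mem_im]; exact hx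
      have hout : ∀ y ∈ B, out G B y = 1 := by
        intro y hy
        rw [hBdef] at hy
        obtain ⟨y', hy', rfl⟩ := mem_image.1 hy
        rw [hBdef, out_image]
        rw [← hY2]
        exact out_const G (R := R2 G) (fun _ _ h => h.symm) (R2_inv G) hkm hY hk hmin
          hvt hy' hx
      have hin : ∀ z ∈ B, z ≠ v → R1 G v z := by
        intro z hz hzv
        obtain ⟨t, ht, htv, htz⟩ : ∃ t ∈ B, t ≠ v ∧ t ≠ z := by
          have h8 : 1 ≤ ((B.erase v).erase z).card := by
            rw [card_erase_of_mem (mem_erase.2 ⟨hzv, hz⟩), card_erase_of_mem hmem]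
            omega
          obtain ⟨t, ht⟩ := card_pos.1 h8
          rw [mem_erase, mem_erase] at ht
          exact ⟨t, ht.2.2, ht.2.1, ht.1⟩
        exact R1_of_triangle G (hadj v B hmem hB3 (hout v hmem) z hz hzv)
          (hadj z B hz hB3 (hout z hz) t ht htz)
          (hadj t B ht hB3 (hout t ht) v hmem htv.symm)
      have hz1 : u ∉ B := fun h => hr (hin u h ha.ne')
      have hz2 : u' ∉ B := fun h => hr' (hin u' h ha'.ne')
      have h8 := hout v hmem
      unfold out at h8
      obtain ⟨z, hz⟩ := card_eq_one.1 h8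
      have h9 : u ∈ univ.filter (fun z => z ∉ B ∧ G.Adj v z) :=
        mem_filter.2 ⟨mem_univ _, hz1, ha⟩
      have h10 : u' ∈ univ.filter (fun z => z ∉ B ∧ G.Adj v z) :=
        mem_filter.2 ⟨mem_univ _, hz2, ha'⟩
      rw [hz, mem_singleton] at h9 h10
      rw [h9, h10]
    -- the circulation of `c` has at most eleven edges outside `R1`
    have hcnt : cnt (wc c) (fun u v => ¬ R1 G u v) ≤ 11 := by
      let S : Finset (V × V) := univ.filter (fun p => wc c p.1 p.2 = 1 ∧ ¬ R1 G p.1 p.2)
      have hS : cnt (wc c) (fun u v => ¬ R1 G u v) ≤ S.card :=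
        cnt_le S fun p hp hq => mem_filter.2 ⟨mem_univ _, hp, hq⟩
      have hSadj : ∀ p ∈ S, G.Adj p.1 p.2 := by
        intro p hp
        by_contra hcc
        have h8 := (mem_filter.1 hp).2.1
        rw [(circ_wc c).supp _ _ hcc] at h8
        exact absurd h8 (by norm_num)
      have hf : (S.image Prod.fst).card = S.card := by
        refine card_image_of_injOn ?_
        intro p hp q hq hpq
        have hp' := mem_filter.1 (mem_coe.1 hp)
        have hq' := mem_filter.1 (mem_coe.1 hq)
        have h8 := hSadj q hq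
        have h9 := hq'.2.2
        rw [← hpq] at h8 h9
        exact Prod.ext hpq (huniq p.1 p.2 q.2 (hSadj p hp) hp'.2.2 h8 h9)
      have hs : (S.image Prod.snd).card = S.card := by
        refine card_image_of_injOn ?_
        intro p hp q hq hpq
        have hp' := mem_filter.1 (mem_coe.1 hp)
        have hq' := mem_filter.1 (mem_coe.1 hq)
        have h8 := (hSadj q hq).symm
        have h9 : ¬ R1 G q.2 q.1 := fun h => hq'.2.2 h.symm
        rw [← hpq] at h8 h9
        exact Prod.ext (huniq p.2 p.1 q.1 (hSadj p hp).symm (fun h => hp'.2.2 h.symm) h8 h9) hpq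
      have hdis : Disjoint (S.image Prod.fst) (S.image Prod.snd) := by
        rw [Finset.disjoint_left]
        intro v hv hv'
        obtain ⟨p, hp, rfl⟩ := mem_image.1 hv
        obtain ⟨q, hq, hqp⟩ := mem_image.1 hv'
        have hp' := mem_filter.1 hp
        have hq' := mem_filter.1 hq
        have h8 := (hSadj q hq).symm
        have h9 : ¬ R1 G q.2 q.1 := fun h => hq'.2.2 h.symm
        rw [hqp] at h8 h9
        have h10 := huniq p.1 p.2 q.1 (hSadj p hp) hp'.2.2 h8 h9
        have h11 := hq'.2.1
        rw [hqp, ← h10, (circ_wc c).anti, hp'.2.1] at h11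
        exact absurd h11 (by norm_num)
      have hsub : S.image Prod.fst ∪ S.image Prod.snd ⊆ c.support.tail.toFinset := by
        have htail : ∀ v, v ∈ c.support → v ∈ c.support.tail.toFinset := by
          intro v hv
          rw [List.mem_toFinset]
          rw [SimpleGraph.Walk.mem_support_iff] at hv
          rcases hv with rfl | hv
          · exact c.end_mem_tail_support hcy.not_nil
          · exact hv
        intro v hv
        rcases mem_union.1 hv with hv | hv
        · obtain ⟨p, hp, rfl⟩ := mem_image.1 hv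
          have hp' := mem_filter.1 hp
          have h8 := wc_mem c (u := p.1) (v := p.2) (by rw [hp'.2.1]; norm_num)
          exact htail _ (c.fst_mem_support_of_mem_edges h8)
        · obtain ⟨p, hp, rfl⟩ := mem_image.1 hv
          have hp' := mem_filter.1 hp
          have h8 := wc_mem c (u := p.1) (v := p.2) (by rw [hp'.2.1]; norm_num)
          exact htail _ (c.snd_mem_support_of_mem_edges h8)
      have h8 := card_le_card hsub
      rw [card_union_of_disjoint hdis, hf, hs] at h8
      have h9 := List.toFinset_card_le c.support.tail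
      rw [List.length_tail, SimpleGraph.Walk.length_support] at h9
      omega
    have hR2 : ∀ u v, s(u, v) ∈ c.edges → R2 G u v := fun u v h =>
      ⟨wc c, circ_wc c, uni_wc c hcy.edges_nodup, hcnt, wc_ne c hcy.edges_nodup h⟩
    obtain ⟨B, hB1, hB2, hB3, hB4⟩ := hblk a
    rw [hY1] at hB3
    have h8 := stay G hB2 c hB1 hR2
    have h9 : c.support.tail.toFinset ⊆ B := by
      intro v hv
      rw [List.mem_toFinset] at hv
      exact h8 v (List.mem_of_mem_tail hv)
    have h10 := card_le_card h9
    rw [List.toFinset_card_of_nodup hcy.support_nodup, List.length_tail,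
      SimpleGraph.Walk.length_support, hB3] at h10
    have h11 := hcy.three_le_length
    omega

/-- the 2-regular case -/
theorem two (hc : G.Connected) (h3 : 3 ≤ Fintype.card V) (hd : ∀ v, G.degree v = 2) :
    ∃ f, Circ G f ∧ ∀ u v, G.Adj u v → 1 ≤ |f u v| ∧ |f u v| ≤ 4 := by
  classical
  have hnt : Nontrivial V := Fintype.one_lt_card_iff_nontrivial.1 (by omega)
  have hna : ¬ G.IsAcyclic := by
    intro ha
    have ht : G.IsTree := ⟨hc, ha⟩
    obtain ⟨v, hv⟩ := ht.exists_vert_degree_one_of_nontrivial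
    have h := hd v
    omega
  unfold SimpleGraph.IsAcyclic at hna
  push Not at hna
  obtain ⟨a, c, hcy⟩ := hna
  have hw := circ_wc c
  have hu := uni_wc c hcy.edges_nodup
  -- at a vertex of the support both edges are in the support
  have key : ∀ v u, wc c v u ≠ 0 → ∀ u', G.Adj v u' → wc c v u' ≠ 0 := by
    intro v u h u' hu' h0
    have hvu : G.Adj v u := by
      by_contra hcc
      exact h (hw.supp _ _ hcc)
    have hne : u' ≠ u := by
      rintro rfl
      exact h h0
    have h2 := hd v
    rw [← SimpleGraph.card_neighborFinset_eq_degree] at h2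
    have h4 : ({u', u} : Finset V) ⊆ G.neighborFinset v := by
      intro z hz
      rw [mem_insert, mem_singleton] at hz
      rw [SimpleGraph.mem_neighborFinset]
      rcases hz with rfl | rfl
      · exact hu'
      · exact hvu
    have h5 := eq_of_subset_of_card_le h4 (by rw [h2, card_pair hne])
    have h6 := hw.bal v
    rw [Finset.sum_eq_single u] at h6
    · exact h h6
    · intro z _ hz
      by_cases hz' : z = u'
      · rw [hz']; exact h0
      · refine hw.supp _ _ fun hadj => ?_
        have h7 : z ∈ G.neighborFinset v := by rwa [SimpleGraph.mem_neighborFinset]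
        rw [← h5, mem_insert, mem_singleton] at h7
        exact h7.elim hz' hz
    · intro hcc; exact absurd (mem_univ _) hcc
  have hall : ∀ v, ∃ u, wc c v u ≠ 0 := by
    let X : Finset V := univ.filter (fun v => ∃ u, wc c v u ≠ 0)
    by_contra hcon
    have hX2 : X ≠ univ := by
      intro h
      refine hcon fun v => ?_
      have h1 : v ∈ X := by rw [h]; exact mem_univ _
      exact (mem_filter.1 h1).2
    have hX1 : X.Nonempty := by
      have hne : ¬ c.Nil := hcy.not_nil
      have h8 : s(a, c.snd) ∈ c.edges := by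
        have := c.cons_tail_eq hne
        have h9 : s(a, c.snd) ∈ (SimpleGraph.Walk.cons (c.adj_snd hne) c.tail).edges := by
          rw [SimpleGraph.Walk.edges_cons]
          exact List.mem_cons_self
        rw [this] at h9
        exact h9
      exact ⟨a, mem_filter.2 ⟨mem_univ _, _, wc_ne c hcy.edges_nodup h8⟩⟩
    obtain ⟨u, hu, v, hv, huv⟩ := exists_bd G hc hX1 hX2
    obtain ⟨u', hu'⟩ := (mem_filter.1 hu).2
    have h1 := key u u' hu' v huv
    refine hv (mem_filter.2 ⟨mem_univ _, u, ?_⟩)
    rw [hw.anti]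
    exact neg_ne_zero.2 h1
  refine ⟨wc c, hw, fun u v huv => ?_⟩
  obtain ⟨u', hu'⟩ := hall u
  have h1 := key u u' hu' v huv
  rcases hu u v with h | h | h
  · exact absurd h h1
  · rw [h]; norm_num
  · rw [h]; norm_num

/-- **Vertex-transitive graphs** -/
theorem vertexTransitive (hc : G.Connected) (h3 : 3 ≤ Fintype.card V)
    (hvt : ∀ u v, ∃ g : G ≃g G, g u = v)
    (hex : (∀ v, G.degree v = 3) →
      (∃ (a : V) (c : G.Walk a a), c.IsCycle ∧ c.length ≤ 11) ∧
      (∃ (a : V) (c : G.Walk a a), c.IsCycle ∧ c.length ≠ 3 ∧ c.length ≤ 23)) :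
    ∃ f, Circ G f ∧ ∀ u v, G.Adj u v → 1 ≤ |f u v| ∧ |f u v| ≤ 4 := by
  classical
  obtain ⟨a⟩ := hc.nonempty
  have hd : ∀ v, G.degree v = G.degree a := by
    intro v
    obtain ⟨g, rfl⟩ := hvt a v
    exact (g.degree_eq a)
  have hm := fun (X : Finset V) (h1 : X.Nonempty) (h2 : X ≠ univ) => mader G hc hvt hd h1 h2
  rcases lt_trichotomy (G.degree a) 3 with h | h | h
  · by_cases h2 : G.degree a = 2
    · exact two G hc h3 (fun v => (hd v).trans h2)
    · exfalso
      -- the closed neighbourhood of a vertex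
      let X : Finset V := insert a (G.neighborFinset a)
      have hXc : X.card ≤ 2 := by
        refine (card_insert_le _ _).trans ?_
        rw [SimpleGraph.card_neighborFinset_eq_degree]
        omega
      have hX2 : X ≠ univ := by
        intro h4
        rw [h4, card_univ] at hXc
        omega
      obtain ⟨u, hu, v, hv, huv⟩ := exists_bd G hc (X := X) ⟨a, mem_insert_self _ _⟩ hX2
      rcases mem_insert.1 hu with rfl | hu
      · exact hv (mem_insert_of_mem (by rwa [SimpleGraph.mem_neighborFinset]))
      · rw [SimpleGraph.mem_neighborFinset] at hu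
        have hva : v ≠ a := by
          rintro rfl
          exact hv (mem_insert_self _ _)
        have h4 : ({a, v} : Finset V) ⊆ G.neighborFinset u := by
          intro z hz
          rw [mem_insert, mem_singleton] at hz
          rw [SimpleGraph.mem_neighborFinset]
          rcases hz with rfl | rfl
          · exact hu.symm
          · exact huv
        have h5 := card_le_card h4
        rw [card_pair hva.symm, SimpleGraph.card_neighborFinset_eq_degree, hd u] at h5
        omega
  · have hd3 : ∀ v, G.degree v = 3 := fun v => (hd v).trans h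
    obtain ⟨h11, h23⟩ := hex hd3
    exact flow_of_cuts G (fun X h1 h2 h3 => cubic G hc hvt hd3 h11 h23 X h1 h2 h3)
  · exact flow_of_cuts G (fun X h1 h2 _ => le_trans (by omega) (hm X h1 h2))

/-- **Edge-transitive graphs** -/
theorem edgeTransitive (hc : G.Connected) (h3 : ∀ v, 3 ≤ G.degree v)
    (het : ∀ u v x y, G.Adj u v → G.Adj x y → ∃ g : G ≃g G, s(g u, g v) = s(x, y))
    (hex : (∃ v, G.degree v = 3) → ∃ (a : V) (c : G.Walk a a), c.IsCycle ∧ c.length ≤ 11) :
    ∃ f, Circ G f ∧ ∀ u v, G.Adj u v → 1 ≤ |f u v| ∧ |f u v| ≤ 4 := by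
  classical
  by_cases h : ∃ v, G.degree v = 3
  · obtain ⟨a, c, hcy, hl⟩ := hex h
    have hne : ¬ c.Nil := hcy.not_nil
    have h8 : s(a, c.snd) ∈ c.edges := by
      have := c.cons_tail_eq hne
      have h9 : s(a, c.snd) ∈ (SimpleGraph.Walk.cons (c.adj_snd hne) c.tail).edges := by
        rw [SimpleGraph.Walk.edges_cons]
        exact List.mem_cons_self
      rw [this] at h9
      exact h9
    have h9 := R1_of_walk G c hcy.edges_nodup hl h8
    refine flow_of_cuts G (fun X h1 h2 h4 => ?_)
    exfalso
    obtain ⟨u, hu, v, hv, huv⟩ := exists_bd G hc h1 h2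
    obtain ⟨g, hg⟩ := het a c.snd u v (c.adj_snd hne) huv
    have h10 : R1 G (g a) (g c.snd) := (R1_iff G g _ _).2 h9
    refine h4 u hu v hv ?_
    rw [Sym2.eq_iff] at hg
    rcases hg with ⟨p, q⟩ | ⟨p, q⟩
    · rw [p, q] at h10
      exact h10.r2
    · rw [p, q] at h10
      exact h10.symm.r2
  · push Not at h
    have h4 : ∀ v, 4 ≤ G.degree v := fun v => by have := h3 v; have := h v; omega
    exact flow_of_cuts G (fun X h1 h2 _ => mader_edge G hc het h4 h1 h2)

end

end Pool.Agent.K4H96.VT
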