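import Pool.Agent.K4H96.VT.Even

set_option autoImplicit false
set_option linter.unusedSectionVars false

/-! # Invariant 2-factors of vertex-transitive cubic graphs -/

namespace Pool.Agent.K4H96.VT

open Finset

variable {V : Type} [Fintype V] [DecidableEq V]

/-- both edges at a vertex of degree two -/
lemma both {K : SimpleGraph V} {w : V → V → ℤ} (hw : Circ K w) {v : V}
    (h2 : (K.neighborSet v).ncard = 2) {u u' : V} (h : w v u ≠ 0) (hu' : K.Adj v u') :
    w v u' ≠ 0 := by
  classical
  intro h0
  have hvu : K.Adj v u := by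
    by_contra hcc
    exact h (hw.supp _ _ hcc)
  have hne : u' ≠ u := by
    rintro rfl
    exact h h0
  rw [ncard_nb, ← SimpleGraph.card_neighborFinset_eq_degree] at h2
  have h4 : ({u', u} : Finset V) ⊆ K.neighborFinset v := by
    intro z hz
    rw [mem_insert, mem_singleton] at hz
    rw [SimpleGraph.mem_neighborFinset]
    rcases hz with rfl | rfl
    · exact hu'
    · exact hvu
  have h5 := eq_of_subset_of_card_le h4 (by rw [h2, card_pair hne])
  have h6 := hw.bal v
  rw [Finset.sum_eq_single u] at h6
  · exact h h6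
  · intro z _ hz
    by_cases hz' : z = u'
    · rw [hz']; exact h0
    · refine hw.supp _ _ fun hadj => ?_
      have h7 : z ∈ K.neighborFinset v := by rwa [SimpleGraph.mem_neighborFinset]
      rw [← h5, mem_insert, mem_singleton] at h7
      exact h7.elim hz' hz
  · intro hcc; exact absurd (mem_univ _) hcc

section Two

variable {K : SimpleGraph V} (hK : ∀ v, (K.neighborSet v).ncard = 2)
include hK

/-- the edges at the vertices of a circuit belong to the circuit -/
lemma closed_edge {a : V} {c : K.Walk a a} (hc : c.IsCycle) {x y : V} (hx : x ∈ c.support)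
    (hxy : K.Adj x y) : s(x, y) ∈ c.edges := by
  rw [SimpleGraph.Walk.mem_support_iff_exists_mem_edges_of_not_nil hc.not_nil] at hx
  obtain ⟨e, he, hxe⟩ := hx
  obtain ⟨z, rfl⟩ := hxe
  have h1 := wc_ne c hc.edges_nodup he
  exact wc_mem c (both (circ_wc c) (hK x) h1 hxy)

lemma closed_vert {a : V} {c : K.Walk a a} (hc : c.IsCycle) {x y : V} (hx : x ∈ c.support)
    (hxy : K.Adj x y) : y ∈ c.support :=
  c.snd_mem_support_of_mem_edges (closed_edge hK hc hx hxy)

lemma closed_walk {a : V} {c : K.Walk a a} (hc : c.IsCycle) {x y : V} (hx : x ∈ c.support)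
    (p : K.Walk x y) : y ∈ c.support := by
  induction p with
  | nil => exact hx
  | cons h p ih => exact ih (closed_vert hK hc hx h)

/-- the length of a circuit is the size of the component -/
lemma cyc_len {a : V} {c : K.Walk a a} (hc : c.IsCycle) :
    c.length = ({x | K.Reachable a x} : Set V).ncard := by
  classical
  have h1 : ({x | K.Reachable a x} : Set V) = (c.support.tail.toFinset : Set V) := by
    ext x
    simp only [Set.mem_setOf_eq, List.coe_toFinset]
    constructor
    · rintro ⟨p⟩
      have h2 := closed_walk hK hc c.start_mem_support p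
      rw [SimpleGraph.Walk.mem_support_iff] at h2
      rcases h2 with rfl | h2
      · exact c.end_mem_tail_support hc.not_nil
      · exact h2
    · intro hx
      exact ⟨c.takeUntil x (List.mem_of_mem_tail hx)⟩
  rw [h1, Set.ncard_coe_finset, List.toFinset_card_of_nodup hc.support_nodup, List.length_tail,
    SimpleGraph.Walk.length_support]
  rfl

/-- a circuit through a vertex -/
lemma exists_cyc (a : V) : ∃ c : K.Walk a a, c.IsCycle := by
  classical
  have h1 : (K.neighborSet a).Nonempty := by
    rw [← Set.ncard_pos (Set.toFinite _), hK a]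
    norm_num
  obtain ⟨b, hb⟩ := h1
  obtain ⟨x, c, hc, hm⟩ := exists_cycle K (fun v => by rw [hK v]; decide) hb
  have h2 := c.fst_mem_support_of_mem_edges hm
  exact ⟨c.rotate a h2, (SimpleGraph.Walk.isCycle_rotate h2).2 hc⟩

/-- if all circuits have even length then the graph is bipartite -/
theorem colorable (he : ∀ (a : V) (c : K.Walk a a), c.IsCycle → Even c.length) :
    K.Colorable 2 := by
  classical
  rw [SimpleGraph.two_colorable_iff_forall_loop_even]
  intro u w
  obtain ⟨c, hc⟩ := exists_cyc hK u
  have hm := he u c hc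
  let P : V → Prop := fun x => ∃ i, 1 ≤ i ∧ i ≤ c.length ∧ Odd i ∧ c.getVert i = x
  have hP1 : ∀ i, 1 ≤ i → i ≤ c.length → (P (c.getVert i) ↔ Odd i) := by
    intro i hi1 hi2
    constructor
    · rintro ⟨j, hj1, hj2, hj3, hj4⟩
      have := hc.getVert_injOn (Set.mem_setOf.2 ⟨hj1, hj2⟩) (Set.mem_setOf.2 ⟨hi1, hi2⟩) hj4
      rwa [← this]
    · intro h
      exact ⟨i, hi1, hi2, h, rfl⟩
  have hlen : 1 ≤ c.length := le_trans (by norm_num) hc.three_le_length
  have hP : ∀ i, i ≤ c.length → (P (c.getVert i) ↔ Odd i) := by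
    intro i hi
    rcases Nat.eq_zero_or_pos i with rfl | h
    · have h1 := hP1 c.length hlen le_rfl
      rw [SimpleGraph.Walk.getVert_length] at h1
      rw [SimpleGraph.Walk.getVert_zero, h1, ← Nat.not_even_iff_odd, ← Nat.not_even_iff_odd]
      simp [hm]
    · exact hP1 i h hi
  have hstep : ∀ x y, x ∈ c.support → K.Adj x y → (P x ↔ ¬ P y) := by
    intro x y hx hxy
    have h1 := closed_edge hK hc hx hxy
    rw [SimpleGraph.Walk.mk_mem_edges_iff_exists] at h1
    obtain ⟨i, hi, h2⟩ := h1
    have h3 := hP i (by omega)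
    have h4 := hP (i + 1) (by omega)
    rw [Sym2.eq_iff] at h2
    rcases h2 with ⟨h2, h2'⟩ | ⟨h2, h2'⟩
    · rw [← h2, ← h2', h3, h4, Nat.odd_add_one, not_not]
    · rw [← h2, ← h2', h3, h4, Nat.odd_add_one]
  have hwalk : ∀ (x y : V) (p : K.Walk x y), x ∈ c.support → (Even p.length ↔ (P x ↔ P y)) := by
    intro x y p
    induction p with
    | nil => intro _; simp
    | @cons a b d h p ih =>
      intro hx
      have h1 := hstep _ _ hx h
      have h2 := ih (closed_vert hK hc hx h)
      rw [SimpleGraph.Walk.length_cons, Nat.even_add_one, h2, h1]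
      by_cases h3 : P b
      · simp [h3]
      · simp [h3]
  exact (hwalk u u w c.start_mem_support).2 Iff.rfl

end Two

end Pool.Agent.K4H96.VT
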