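import Pool.Agent.K4H96.VT.Flow

set_option autoImplicit false
set_option linter.unusedSectionVars false

/-! # The circulation of a closed trail -/

namespace Pool.Agent.K4H96.VT

open Finset

variable {V : Type} [Fintype V] [DecidableEq V]

/-- the pairs of vertices of the darts -/
def prs {G : SimpleGraph V} {a b : V} (c : G.Walk a b) : List (V × V) :=
  c.darts.map (fun d => d.toProd)

/-- the circulation of a closed walk -/
def wc {G : SimpleGraph V} {a b : V} (c : G.Walk a b) (u v : V) : ℤ :=
  ((prs c).count (u, v) : ℤ) - ((prs c).count (v, u) : ℤ)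

lemma count_edge {G : SimpleGraph V} (L : List G.Dart) {u v : V} (h : u ≠ v) :
    (L.map (fun d => d.toProd)).count (u, v) + (L.map (fun d => d.toProd)).count (v, u) =
      (L.map (fun d => d.edge)).count s(u, v) := by
  induction L with
  | nil => simp
  | cons d L ih =>
    simp only [List.map_cons, List.count_cons]
    have key : (if (d.toProd == (u, v)) = true then 1 else 0) +
        (if (d.toProd == (v, u)) = true then 1 else 0) =
        (if (d.edge == s(u, v)) = true then 1 else 0) := by
      obtain ⟨⟨x, y⟩, hxy⟩ := d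
      simp only [beq_iff_eq, SimpleGraph.Dart.edge, Prod.mk.injEq]
      have h5 : (Sym2.mk x y = s(u, v)) ↔ (x = u ∧ y = v) ∨ (x = v ∧ y = u) := Sym2.eq_iff
      by_cases h1 : x = u ∧ y = v
      · have h2 : ¬ (x = v ∧ y = u) := fun h2 => h (h1.1.symm.trans h2.1)
        rw [if_pos h1, if_neg h2, if_pos (h5.2 (Or.inl h1))]
      · by_cases h2 : x = v ∧ y = u
        · rw [if_neg h1, if_pos h2, if_pos (h5.2 (Or.inr h2))]
        · rw [if_neg h1, if_neg h2, if_neg (fun h3 => (h5.1 h3).elim h1 h2)]
    omega

lemma sum_count_fst (L : List (V × V)) (u : V) :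
    ∑ v, L.count (u, v) = (L.map Prod.fst).count u := by
  induction L with
  | nil => simp
  | cons d L ih =>
    simp only [List.map_cons, List.count_cons, Finset.sum_add_distrib, ih]
    congr 1
    obtain ⟨x, y⟩ := d
    simp only [beq_iff_eq, Prod.mk.injEq]
    by_cases h : x = u
    · simp [h]
    · simp [h]

lemma sum_count_snd (L : List (V × V)) (u : V) :
    ∑ v, L.count (v, u) = (L.map Prod.snd).count u := by
  induction L with
  | nil => simp
  | cons d L ih =>
    simp only [List.map_cons, List.count_cons, Finset.sum_add_distrib, ih]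
    congr 1
    obtain ⟨x, y⟩ := d
    simp only [beq_iff_eq, Prod.mk.injEq]
    by_cases h : y = u
    · simp [h]
    · simp [h]

lemma count_fst_snd {G : SimpleGraph V} {a : V} (c : G.Walk a a) (x : V) :
    ((prs c).map Prod.fst).count x = ((prs c).map Prod.snd).count x := by
  have h1 : (prs c).map Prod.fst = c.darts.map (·.fst) := by
    unfold prs
    rw [List.map_map]
    rfl
  have h2 : (prs c).map Prod.snd = c.darts.map (·.snd) := by
    unfold prs
    rw [List.map_map]
    rfl
  have h3 := c.map_fst_darts_append
  have h4 := c.cons_map_snd_darts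
  have h5 := congrArg (List.count x) (h3.trans h4.symm)
  rw [List.count_append, List.count_cons, List.count_cons, List.count_nil] at h5
  rw [h1, h2]
  omega

lemma circ_wc {G : SimpleGraph V} {a : V} (c : G.Walk a a) : Circ G (wc c) := by
  refine ⟨fun u v => by unfold wc; ring, fun u v h => ?_, fun u => ?_⟩
  · have h1 : ∀ x y, ¬ G.Adj x y → (prs c).count (x, y) = 0 := by
      intro x y hxy
      rw [List.count_eq_zero]
      intro hm
      unfold prs at hm
      obtain ⟨d, -, hd⟩ := List.mem_map.1 hm
      have := d.adj
      rw [hd] at this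
      exact hxy this
    unfold wc
    rw [h1 u v h, h1 v u (fun h' => h h'.symm)]
    simp
  · unfold wc
    rw [Finset.sum_sub_distrib, ← Nat.cast_sum, ← Nat.cast_sum, sum_count_fst, sum_count_snd,
      count_fst_snd]
    ring

lemma wc_edge {G : SimpleGraph V} {a : V} (c : G.Walk a a) (hc : c.edges.Nodup) {u v : V}
    (h : u ≠ v) : (prs c).count (u, v) + (prs c).count (v, u) ≤ 1 := by
  unfold prs
  rw [count_edge c.darts h]
  exact List.nodup_iff_count_le_one.1 hc _

lemma uni_wc {G : SimpleGraph V} {a : V} (c : G.Walk a a) (hc : c.edges.Nodup) : Uni (wc c) := by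
  intro u v
  by_cases h : u = v
  · left
    unfold wc
    rw [h]
    ring
  · have := wc_edge c hc h
    unfold wc
    omega

lemma wc_ne {G : SimpleGraph V} {a : V} (c : G.Walk a a) (hc : c.edges.Nodup) {u v : V}
    (h : s(u, v) ∈ c.edges) : wc c u v ≠ 0 := by
  have huv : u ≠ v := (c.adj_of_mem_edges h).ne
  have h1 := wc_edge c hc huv
  have h2 : (prs c).count (u, v) + (prs c).count (v, u) = c.edges.count s(u, v) := by
    unfold prs
    exact count_edge c.darts huv
  have h3 : 0 < c.edges.count s(u, v) := List.count_pos_iff.2 h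
  unfold wc
  omega

lemma wc_mem {G : SimpleGraph V} {a : V} (c : G.Walk a a) {u v : V}
    (h : wc c u v ≠ 0) : s(u, v) ∈ c.edges := by
  have huv : G.Adj u v := by
    by_contra hc
    exact h ((circ_wc c).supp _ _ hc)
  have h2 : (prs c).count (u, v) + (prs c).count (v, u) = c.edges.count s(u, v) := by
    unfold prs
    exact count_edge c.darts huv.ne
  rw [← List.count_pos_iff]
  unfold wc at h
  omega

lemma wc_one {G : SimpleGraph V} {a : V} (c : G.Walk a a) {u v : V}
    (h : wc c u v = 1) : (u, v) ∈ prs c := by
  rw [← List.count_pos_iff]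
  unfold wc at h
  omega

lemma cnt_wc {G : SimpleGraph V} {a : V} (c : G.Walk a a) :
    cnt (wc c) (fun _ _ => True) ≤ c.length := by
  have h1 : cnt (wc c) (fun _ _ => True) ≤ (prs c).toFinset.card :=
    cnt_le _ fun p hp _ => List.mem_toFinset.2 (wc_one c hp)
  refine h1.trans ((List.toFinset_card_le _).trans ?_)
  unfold prs
  rw [List.length_map, SimpleGraph.Walk.length_darts]

end Pool.Agent.K4H96.VT
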